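import Mathlib

/-!
# Cut-off sequences on a countable product
-/

set_option autoImplicit false

namespace Pool.Agent.CPY

open Set Filter Topology

/-- A cut-off sequence for the set `C` which leaves the first `n` blocks alone. -/
structure IsCutoff {Z : Type*} [TopologicalSpace Z] (w : ℕ → (ℕ → Z) → ℝ) (C : Set (ℕ → Z))
    (n : ℕ) : Prop where
  cont : ∀ k, Continuous (w k)
  nonneg : ∀ k x, 0 ≤ w k x
  le_one : ∀ k x, w k x ≤ 1
  dep : ∀ k x x', (∀ j < k, x j = x' j) → w k x = w k x'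
  step : ∀ k x, 0 < w k x → w (k + 1) x = 1
  low : ∀ k < n, ∀ x, w k x = 0
  off : ∀ x, x ∉ C → ∃ k, 0 < w k x
  near : ∀ x ∈ C, ∀ k, ∀ᶠ x' in 𝓝 x, w k x' = 0

end Pool.Agent.CPY
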