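import Mathlib
import Pool.Agent.CPY.Defs

/-!
# The ladder of homeomorphisms and its limit
-/

set_option autoImplicit false

namespace Pool.Agent.CPY

open Set Filter Topology

/-- Neighbourhoods in a countable product only see finitely many blocks. -/
theorem exists_near {Z : Type*} [TopologicalSpace Z] {x : ℕ → Z} {N : Set (ℕ → Z)}
    (hN : N ∈ 𝓝 x) : ∃ m : ℕ, ∀ᶠ x' in 𝓝 x, ∀ x'', (∀ k < m, x'' k = x' k) → x'' ∈ N := by
  rw [nhds_pi, Filter.mem_pi] at hN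
  obtain ⟨I, hI, t, ht, hs⟩ := hN
  obtain ⟨b, hb⟩ := hI.bddAbove
  refine ⟨b + 1, ?_⟩
  have h1 : ∀ᶠ x' in 𝓝 x, ∀ i ∈ I, x' i ∈ t i :=
    (eventually_all_finite hI).2 fun i _ => (continuous_apply i).tendsto x (ht i)
  filter_upwards [h1] with x' hx' x'' hx''
  refine hs fun i hi => ?_
  rw [hx'' i (Nat.lt_succ_of_le (hb hi))]
  exact hx' i hi

/-- The two-sided perturbation of a continuous map. -/
theorem perturb {Z Z' ι : Type*} [TopologicalSpace Z] [TopologicalSpace Z']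
    {H : (ℕ → Z) → (ℕ → Z')} (hH : Continuous H) {u : ℕ → Z} (Φ : ι → (ℕ → Z) → (ℕ → Z))
    (Ψ : ι → (ℕ → Z') → (ℕ → Z'))
    (hΦ : ∀ m : ℕ, ∀ᶠ u' in 𝓝 u, ∀ i, ∀ k < m, Φ i u' k = u' k)
    (hΨ : ∀ m : ℕ, ∀ᶠ g' in 𝓝 (H u), ∀ i, ∀ k < m, Ψ i g' k = g' k) {N : Set (ℕ → Z')}
    (hN : N ∈ 𝓝 (H u)) : ∀ᶠ u' in 𝓝 u, ∀ i, Ψ i (H (Φ i u')) ∈ N := by
  obtain ⟨m1, h1⟩ := exists_near hN
  obtain ⟨m2, h2⟩ := exists_near (hH.tendsto u (h1.and (hΨ m1)))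
  filter_upwards [h2, hΦ m2] with u' hu1 hu2 i
  obtain ⟨h3, h4⟩ := hu1 (Φ i u') (hu2 i)
  exact h3 _ (h4 i)

/-- A ladder. -/
structure Ladder (Z Z' : Type*) [TopologicalSpace Z] [TopologicalSpace Z'] where
  /-- the homeomorphisms -/
  H : ℕ → (ℕ → Z) ≃ₜ (ℕ → Z')
  /-- the corrections in the source -/
  Φ : ℕ → (ℕ → Z) ≃ₜ (ℕ → Z)
  /-- the corrections in the target -/
  Ψ : ℕ → (ℕ → Z') ≃ₜ (ℕ → Z')
  hH : ∀ n u, H (n + 1) u = Ψ n (H n (Φ n u))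
  /-- the closed sets -/
  K : ℕ → Set (ℕ → Z)
  hK : ∀ n, K n ⊆ K (n + 1)
  /-- cut-offs in the source -/
  v : ℕ → ℕ → (ℕ → Z) → ℝ
  /-- their sets -/
  L : ℕ → Set (ℕ → Z)
  hv : ∀ n, IsCutoff (v n) (L n) n
  hL : ∀ n, K n ⊆ L n
  /-- cut-offs in the target -/
  w : ℕ → ℕ → (ℕ → Z') → ℝ
  /-- their sets -/
  C : ℕ → Set (ℕ → Z')
  hw : ∀ n, IsCutoff (w n) (C n) n
  hC : ∀ n, ∀ u ∈ K n, H n u ∈ C n
  hΦ : ∀ n u k, v n k u = 0 → Φ n u k = u k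
  hΦ' : ∀ n u k, v n k u = 0 → (Φ n).symm u k = u k
  hΨ : ∀ n u k, w n k u = 0 → Ψ n u k = u k
  hΨ' : ∀ n u k, w n k u = 0 → (Ψ n).symm u k = u k

namespace Ladder

variable {Z Z' : Type*} [TopologicalSpace Z] [TopologicalSpace Z'] (l : Ladder Z Z')

theorem zero_of_mem {Z : Type*} [TopologicalSpace Z] {w : ℕ → (ℕ → Z) → ℝ} {C : Set (ℕ → Z)}
    {n : ℕ} (hw : IsCutoff w C n) {x : ℕ → Z} (hx : x ∈ C) (k : ℕ) : w k x = 0 :=
  (hw.near x hx k).self_of_nhds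

theorem Φ_eq {n : ℕ} {u : ℕ → Z} (hu : u ∈ l.K n) : l.Φ n u = u :=
  funext fun k => l.hΦ n u k (zero_of_mem (l.hv n) (l.hL n hu) k)

theorem Φ_symm_eq {n : ℕ} {u : ℕ → Z} (hu : u ∈ l.K n) : (l.Φ n).symm u = u :=
  funext fun k => l.hΦ' n u k (zero_of_mem (l.hv n) (l.hL n hu) k)

theorem Ψ_eq {n : ℕ} {u : ℕ → Z} (hu : u ∈ l.K n) : l.Ψ n (l.H n u) = l.H n u :=
  funext fun k => l.hΨ n _ k (zero_of_mem (l.hw n) (l.hC n u hu) k)

theorem H_succ {n : ℕ} {u : ℕ → Z} (hu : u ∈ l.K n) : l.H (n + 1) u = l.H n u := by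
  rw [l.hH, l.Φ_eq hu, l.Ψ_eq hu]

theorem K_le {r n : ℕ} (h : r ≤ n) : l.K r ⊆ l.K n := by
  induction n, h using Nat.le_induction with
  | base => exact subset_rfl
  | succ n _ ih => exact ih.trans (l.hK n)

theorem H_le {r n : ℕ} (h : r ≤ n) {u : ℕ → Z} (hu : u ∈ l.K r) : l.H n u = l.H r u := by
  induction n, h using Nat.le_induction with
  | base => rfl
  | succ n hn ih => rw [l.H_succ (l.K_le hn hu), ih]

/-- The reversed ladder. -/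
def symm : Ladder Z' Z where
  H n := (l.H n).symm
  Φ n := (l.Ψ n).symm
  Ψ n := (l.Φ n).symm
  hH n g := by
    rw [Homeomorph.symm_apply_eq, l.hH, Homeomorph.apply_symm_apply, Homeomorph.apply_symm_apply,
      Homeomorph.apply_symm_apply]
  K n := l.H n '' l.K n
  hK n := by
    rintro _ ⟨u, hu, rfl⟩
    exact ⟨u, l.hK n hu, l.H_succ hu⟩
  v := l.w
  L := l.C
  hv := l.hw
  hL n := by
    rintro _ ⟨u, hu, rfl⟩
    exact l.hC n u hu
  w := l.v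
  C := l.L
  hw := l.hv
  hC n := by
    rintro _ ⟨u, hu, rfl⟩
    rw [Homeomorph.symm_apply_apply]
    exact l.hL n hu
  hΦ := l.hΨ'
  hΦ' := l.hΨ
  hΨ := l.hΦ'
  hΨ' := l.hΦ

/-- Composition of the corrections in the source. -/
def cΦ (r : ℕ) : ℕ → (ℕ → Z) → (ℕ → Z)
  | 0 => id
  | d + 1 => fun u => cΦ r d (l.Φ (r + d) u)

/-- Composition of the corrections in the target. -/
def cΨ (r : ℕ) : ℕ → (ℕ → Z') → (ℕ → Z')
  | 0 => id
  | d + 1 => fun g => l.Ψ (r + d) (cΨ r d g)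

theorem H_eq (r d : ℕ) : ∀ u, l.H (r + d) u = l.cΨ r d (l.H r (l.cΦ r d u)) := by
  induction d with
  | zero => exact fun u => rfl
  | succ d ih =>
    intro u
    rw [← Nat.add_assoc, l.hH, ih]
    rfl

theorem cΦ_near {r : ℕ} {u : ℕ → Z} (hu : u ∈ l.K r) (m : ℕ) :
    ∀ᶠ u' in 𝓝 u, ∀ d, ∀ k < m, l.cΦ r d u' k = u' k := by
  have h1 : ∀ᶠ u' in 𝓝 u, ∀ j ∈ Set.Ico r m, ∀ k ∈ Set.Iio m, l.v j k u' = 0 :=
    (eventually_all_finite (Set.finite_Ico r m)).2 fun j hj =>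
      (eventually_all_finite (Set.finite_Iio m)).2 fun k _ =>
        (l.hv j).near u (l.hL j (l.K_le hj.1 hu)) k
  filter_upwards [h1] with u' hu' d
  have h2 : ∀ d p, (∀ k < m, p k = u' k) → ∀ k < m, l.cΦ r d p k = u' k := by
    intro d
    induction d with
    | zero => exact fun p hp => hp
    | succ d ih =>
      intro p hp
      refine ih _ fun k hk => ?_
      rw [l.hΦ, hp k hk]
      rcases Nat.lt_or_ge (r + d) m with h3 | h3
      · rw [(l.hv (r + d)).dep k p u' fun j hj => hp j (hj.trans hk)]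
        exact hu' (r + d) ⟨Nat.le_add_right r d, h3⟩ k hk
      · exact (l.hv (r + d)).low k (hk.trans_le h3) p
  exact h2 d u' fun k _ => rfl

theorem cΨ_near {r : ℕ} {u : ℕ → Z} (hu : u ∈ l.K r) (m : ℕ) :
    ∀ᶠ g' in 𝓝 (l.H r u), ∀ d, ∀ k < m, l.cΨ r d g' k = g' k := by
  have h1 : ∀ᶠ g' in 𝓝 (l.H r u), ∀ j ∈ Set.Ico r m, ∀ k ∈ Set.Iio m, l.w j k g' = 0 :=
    (eventually_all_finite (Set.finite_Ico r m)).2 fun j hj =>
      (eventually_all_finite (Set.finite_Iio m)).2 fun k _ =>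
        (l.hw j).near _ (by
          rw [← l.H_le hj.1 hu]
          exact l.hC j u (l.K_le hj.1 hu)) k
  filter_upwards [h1] with g' hg' d
  induction d with
  | zero => exact fun k _ => rfl
  | succ d ih =>
    intro k hk
    change l.Ψ (r + d) (l.cΨ r d g') k = g' k
    rw [l.hΨ, ih k hk]
    rcases Nat.lt_or_ge (r + d) m with h3 | h3
    · rw [(l.hw (r + d)).dep k _ g' fun j hj => ih j (hj.trans hk)]
      exact hg' (r + d) ⟨Nat.le_add_right r d, h3⟩ k hk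
    · exact (l.hw (r + d)).low k (hk.trans_le h3) _

/-- Equicontinuity of the homeomorphisms at the points of the ladder. -/
theorem near {r : ℕ} {u : ℕ → Z} (hu : u ∈ l.K r) {N : Set (ℕ → Z')} (hN : N ∈ 𝓝 (l.H r u)) :
    ∀ᶠ u' in 𝓝 u, ∀ n, r ≤ n → l.H n u' ∈ N := by
  have h1 := perturb (l.H r).continuous (l.cΦ r) (l.cΨ r) (l.cΦ_near hu) (l.cΨ_near hu) hN
  filter_upwards [h1] with u' hu' n hn
  obtain ⟨d, rfl⟩ := Nat.exists_eq_add_of_le hn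
  rw [l.H_eq]
  exact hu' d

open Classical in
/-- The limit. -/
noncomputable def lim (u : ℕ → Z) : ℕ → Z' :=
  if h : ∃ n, u ∈ l.K n then l.H (Nat.find h) u else l.H 0 u

theorem lim_eq {u : ℕ → Z} {n : ℕ} (hn : u ∈ l.K n) : l.lim u = l.H n u := by
  classical
  have h : ∃ n, u ∈ l.K n := ⟨n, hn⟩
  unfold lim
  rw [dif_pos h]
  exact (l.H_le (Nat.find_min' h hn) (Nat.find_spec h)).symm

theorem continuous_lim : Continuous fun u : {u : ℕ → Z // ∃ n, u ∈ l.K n} => l.lim u.1 := by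
  rw [continuous_iff_continuousAt]
  rintro ⟨u, r, hu⟩
  intro N hN
  change N ∈ 𝓝 (l.lim u) at hN
  rw [l.lim_eq hu] at hN
  rw [Filter.mem_map, nhds_subtype_eq_comap, Filter.mem_comap]
  refine ⟨_, l.near hu hN, ?_⟩
  rintro ⟨u', n, hn⟩ hu'
  change l.lim u' ∈ N
  rw [l.lim_eq (l.K_le (le_max_right r n) hn)]
  exact hu' (max r n) (le_max_left r n)

theorem symm_lim {u : ℕ → Z} {n : ℕ} (hn : u ∈ l.K n) : l.symm.lim (l.H n u) = u := by
  have h1 : l.H n u ∈ l.symm.K n := ⟨u, hn, rfl⟩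
  rw [l.symm.lim_eq h1]
  exact (l.H n).symm_apply_apply u

theorem lim_mem {u : ℕ → Z} (hu : ∃ n, u ∈ l.K n) : ∃ n, l.lim u ∈ l.H n '' l.K n := by
  obtain ⟨n, hn⟩ := hu
  exact ⟨n, u, hn, (l.lim_eq hn).symm⟩

theorem symm_lim_mem {g : ℕ → Z'} (hg : ∃ n, g ∈ l.H n '' l.K n) :
    ∃ n, l.symm.lim g ∈ l.K n := by
  obtain ⟨n, u, hu, rfl⟩ := hg
  refine ⟨n, ?_⟩
  rw [l.symm_lim hu]
  exact hu

theorem symm_lim_lim {u : ℕ → Z} (hu : ∃ n, u ∈ l.K n) : l.symm.lim (l.lim u) = u := by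
  obtain ⟨n, hn⟩ := hu
  rw [l.lim_eq hn, l.symm_lim hn]

theorem lim_symm_lim {g : ℕ → Z'} (hg : ∃ n, g ∈ l.H n '' l.K n) : l.lim (l.symm.lim g) = g := by
  obtain ⟨n, u, hu, rfl⟩ := hg
  rw [l.symm_lim hu, l.lim_eq hu]

/-- The homeomorphism between the unions. -/
noncomputable def homeo :
    {u : ℕ → Z // ∃ n, u ∈ l.K n} ≃ₜ {g : ℕ → Z' // ∃ n, g ∈ l.H n '' l.K n} where
  toFun u := ⟨l.lim u.1, l.lim_mem u.2⟩
  invFun g := ⟨l.symm.lim g.1, l.symm_lim_mem g.2⟩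
  left_inv u := Subtype.ext (l.symm_lim_lim u.2)
  right_inv g := Subtype.ext (l.lim_symm_lim g.2)
  continuous_toFun := l.continuous_lim.subtype_mk _
  continuous_invFun := l.symm.continuous_lim.subtype_mk _

theorem homeo_apply (u : {u : ℕ → Z // ∃ n, u ∈ l.K n}) {n : ℕ} (hn : u.1 ∈ l.K n) :
    (l.homeo u).1 = l.H n u.1 := l.lim_eq hn

end Ladder

end Pool.Agent.CPY
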