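import Mathlib
import Pool.Agent.CPY.Limit

/-!
# Construction of the ladder from the half steps
-/

set_option autoImplicit false
set_option linter.unusedSectionVars false

namespace Pool.Agent.CPY

open Set Filter Topology

variable {X Y V V' : Type*} [TopologicalSpace X] [TopologicalSpace V] [TopologicalSpace V']

/-- The classes from `c` on are not changed. -/
def Fresh (proj : ℕ → X → Y) (c : ℕ) (H : (ℕ → X × V) ≃ₜ (ℕ → X × V')) : Prop :=
  ∀ u k c', c ≤ c' → proj c' (H u k).1 = proj c' (u k).1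

/-- Equality up to finitely many blocks. -/
def AE (u : ℕ → X × V) (g : ℕ → X × V') : Prop := ∀ᶠ k in atTop, (g k).1 = (u k).1

theorem AE.symm {u : ℕ → X × V} {g : ℕ → X × V'} (h : AE u g) : AE g u := by
  filter_upwards [h] with k hk using hk.symm

/-- The half step property. -/
def HalfStep (proj : ℕ → X → Y) (G : ℕ → (ℕ → X × V) → ℝ) : Prop :=
  ∀ (c n : ℕ), 1 ≤ c → ∀ H : (ℕ → X × V) ≃ₜ (ℕ → X × V'), Fresh proj c H →
    ∀ F : (ℕ → X × V') → ℝ, Continuous F →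
      ∃ (Ψ : (ℕ → X × V') ≃ₜ (ℕ → X × V')) (w : ℕ → (ℕ → X × V') → ℝ),
        IsCutoff w {x | F x = 0} n ∧ (∀ x k, w k x = 0 → Ψ x k = x k) ∧
        (∀ x k, w k x = 0 → Ψ.symm x k = x k) ∧
        (∀ u, G (n + 1) u = 0 → F (H u) ≠ 0 → AE u (Ψ (H u))) ∧
        ∀ x k c', c < c' → proj c' (Ψ x k).1 = proj c' (x k).1

/-- The states of the construction. -/
structure Good (proj : ℕ → X → Y) (G : ℕ → (ℕ → X × V) → ℝ) (G' : ℕ → (ℕ → X × V') → ℝ)
    (n : ℕ) (H : (ℕ → X × V) ≃ₜ (ℕ → X × V')) : Prop where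
  fresh : Fresh proj (2 * n + 1) H
  ae : ∀ u, G n u = 0 ∨ G' n (H u) = 0 → AE u (H u)

/-- One step. -/
def Step (G : ℕ → (ℕ → X × V) → ℝ) (G' : ℕ → (ℕ → X × V') → ℝ) (n : ℕ)
    (H H' : (ℕ → X × V) ≃ₜ (ℕ → X × V')) : Prop :=
  ∃ (Φ : (ℕ → X × V) ≃ₜ (ℕ → X × V)) (Ψ : (ℕ → X × V') ≃ₜ (ℕ → X × V'))
    (v : ℕ → (ℕ → X × V) → ℝ) (w : ℕ → (ℕ → X × V') → ℝ), (∀ u, H' u = Ψ (H (Φ u))) ∧
    IsCutoff v {u | G n u * G' n (H u) * G (n + 1) u = 0} n ∧
    IsCutoff w {x | G n (H.symm x) * G' n x = 0} n ∧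
    (∀ x k, v k x = 0 → Φ x k = x k) ∧ (∀ x k, v k x = 0 → Φ.symm x k = x k) ∧
    (∀ x k, w k x = 0 → Ψ x k = x k) ∧ (∀ x k, w k x = 0 → Ψ.symm x k = x k)

theorem exists_step (proj : ℕ → X → Y) (G : ℕ → (ℕ → X × V) → ℝ) (G' : ℕ → (ℕ → X × V') → ℝ)
    (hG : ∀ n, Continuous (G n)) (hG' : ∀ n, Continuous (G' n))
    (hs : HalfStep (V' := V') proj G) (hs' : HalfStep (V' := V) proj G') (n : ℕ)
    (H : (ℕ → X × V) ≃ₜ (ℕ → X × V')) (hH : Good proj G G' n H) :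
    ∃ H', Good proj G G' (n + 1) H' ∧ Step G G' n H H' := by
  -- the forward half step
  obtain ⟨Ψ, w, hw, hΨ, hΨ', hΨa, hΨp⟩ := hs (2 * n + 1) n (by omega) H hH.fresh
    (fun x => G n (H.symm x) * G' n x)
    (((hG n).comp H.symm.continuous).mul (hG' n))
  have hK : ∀ u, G n u = 0 ∨ G' n (H u) = 0 → Ψ (H u) = H u := by
    intro u hu
    refine funext fun k => hΨ _ k (Ladder.zero_of_mem hw ?_ k)
    change G n (H.symm (H u)) * G' n (H u) = 0
    rw [Homeomorph.symm_apply_apply]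
    exact mul_eq_zero.2 hu
  have ha1 : ∀ u, G n u * G' n (H u) * G (n + 1) u = 0 → AE u (Ψ (H u)) := by
    intro u hu
    by_cases h1 : G n u * G' n (H u) = 0
    · rw [hK u (mul_eq_zero.1 h1)]
      exact hH.ae u (mul_eq_zero.1 h1)
    · refine hΨa u ((mul_eq_zero.1 hu).resolve_left h1) ?_
      rwa [Homeomorph.symm_apply_apply]
  -- the backward half step
  have hf : Fresh proj (2 * n + 2) (H.trans Ψ).symm := by
    intro g k c' hc'
    have h1 := hΨp (H ((H.trans Ψ).symm g)) k c' (by omega)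
    have h2 := hH.fresh ((H.trans Ψ).symm g) k c' (by omega)
    have h3 : Ψ (H ((H.trans Ψ).symm g)) = g := (H.trans Ψ).apply_symm_apply g
    rw [h3] at h1
    rw [h1, h2]
  obtain ⟨Φ, v, hv, hΦ, hΦ', hΦa, hΦp⟩ := hs' (2 * n + 2) n (by omega) (H.trans Ψ).symm hf
    (fun u => G n u * G' n (H u) * G (n + 1) u)
    (((hG n).mul ((hG' n).comp H.continuous)).mul (hG (n + 1)))
  have hL : ∀ u, G n u * G' n (H u) * G (n + 1) u = 0 → Φ u = u := fun u hu =>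
    funext fun k => hΦ _ k (Ladder.zero_of_mem hv hu k)
  have hL' : ∀ u, G n u * G' n (H u) * G (n + 1) u = 0 → Φ.symm u = u := fun u hu =>
    funext fun k => hΦ' _ k (Ladder.zero_of_mem hv hu k)
  refine ⟨Φ.symm.trans (H.trans Ψ), ⟨?_, ?_⟩, Φ.symm, Ψ, v, w, fun _ => rfl, hv, hw, hΦ', hΦ,
    hΨ, hΨ'⟩
  · intro u k c' hc'
    change proj c' (Ψ (H (Φ.symm u)) k).1 = proj c' (u k).1
    have h1 := hΦp (Φ.symm u) k c' (by omega)
    rw [Homeomorph.apply_symm_apply] at h1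
    rw [hΨp _ k c' (by omega), hH.fresh _ k c' (by omega), h1]
  · intro u hu
    change AE u (Ψ (H (Φ.symm u)))
    by_cases h1 : G n u * G' n (H u) * G (n + 1) u = 0
    · rw [hL' u h1]
      exact ha1 u h1
    · have h2 : G' (n + 1) (Ψ (H (Φ.symm u))) = 0 := by
        rcases hu with h3 | h3
        · exact absurd (by rw [h3, mul_zero]) h1
        · exact h3
      have h3 : (H.trans Ψ).symm (Ψ (H (Φ.symm u))) = Φ.symm u :=
        (H.trans Ψ).symm_apply_apply (Φ.symm u)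
      by_cases h4 : G n (Φ.symm u) * G' n (H (Φ.symm u)) * G (n + 1) (Φ.symm u) = 0
      · have h5 := hL _ h4
        rw [Homeomorph.apply_symm_apply] at h5
        rw [← h5] at h4
        exact absurd h4 h1
      · have h5 := hΦa (Ψ (H (Φ.symm u))) h2 (by rw [h3]; exact h4)
        rw [h3, Homeomorph.apply_symm_apply] at h5
        exact h5.symm

theorem exists_seq (proj : ℕ → X → Y) (G : ℕ → (ℕ → X × V) → ℝ) (G' : ℕ → (ℕ → X × V') → ℝ)
    (hG : ∀ n, Continuous (G n)) (hG' : ∀ n, Continuous (G' n))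
    (hs : HalfStep (V' := V') proj G) (hs' : HalfStep (V' := V) proj G')
    (H0 : (ℕ → X × V) ≃ₜ (ℕ → X × V')) (hH0 : Good proj G G' 0 H0) :
    ∃ H : ℕ → (ℕ → X × V) ≃ₜ (ℕ → X × V'), (∀ n, Good proj G G' n (H n)) ∧
      ∀ n, Step G G' n (H n) (H (n + 1)) := by
  have h1 : ∀ n (s : {H : (ℕ → X × V) ≃ₜ (ℕ → X × V') // Good proj G G' n H}),
      ∃ s' : {H : (ℕ → X × V) ≃ₜ (ℕ → X × V') // Good proj G G' (n + 1) H},
        Step G G' n s.1 s'.1 := by
    rintro n ⟨H, hH⟩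
    obtain ⟨H', h1, h2⟩ := exists_step proj G G' hG hG' hs hs' n H hH
    exact ⟨⟨H', h1⟩, h2⟩
  choose f hf using h1
  let s : (n : ℕ) → {H : (ℕ → X × V) ≃ₜ (ℕ → X × V') // Good proj G G' n H} := fun n =>
    Nat.rec ⟨H0, hH0⟩ (fun n s => f n s) n
  exact ⟨fun n => (s n).1, fun n => (s n).2, fun n => hf n (s n)⟩

/-- The ladder. -/
theorem exists_ladder (proj : ℕ → X → Y) (G : ℕ → (ℕ → X × V) → ℝ) (G' : ℕ → (ℕ → X × V') → ℝ)
    (hG : ∀ n, Continuous (G n)) (hG' : ∀ n, Continuous (G' n))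
    (hGm : ∀ n u, G n u = 0 → G (n + 1) u = 0) (hGm' : ∀ n u, G' n u = 0 → G' (n + 1) u = 0)
    (hs : HalfStep (V' := V') proj G) (hs' : HalfStep (V' := V) proj G')
    (H0 : (ℕ → X × V) ≃ₜ (ℕ → X × V')) (hH0 : Good proj G G' 0 H0) :
    ∃ l : Ladder (X × V) (X × V'), (∀ n, l.K n = {u | G n u = 0 ∨ G' n (l.H n u) = 0}) ∧
      ∀ n u, u ∈ l.K n → AE u (l.H n u) := by
  obtain ⟨H, hH, hstep⟩ := exists_seq proj G G' hG hG' hs hs' H0 hH0
  choose Φ Ψ v w h1 h2 h3 h4 h5 h6 h7 using hstep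
  have hfix : ∀ n u, G n u = 0 ∨ G' n (H n u) = 0 → H (n + 1) u = H n u := by
    intro n u hu
    have e1 : Φ n u = u := by
      refine funext fun k => h4 n _ k (Ladder.zero_of_mem (h2 n) ?_ k)
      change G n u * G' n (H n u) * G (n + 1) u = 0
      rw [mul_eq_zero.2 hu, zero_mul]
    rw [h1, e1]
    refine funext fun k => h6 n _ k (Ladder.zero_of_mem (h3 n) ?_ k)
    change G n ((H n).symm (H n u)) * G' n (H n u) = 0
    rw [Homeomorph.symm_apply_apply]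
    exact mul_eq_zero.2 hu
  exact ⟨{
    H := H
    Φ := Φ
    Ψ := Ψ
    hH := h1
    K := fun n => {u | G n u = 0 ∨ G' n (H n u) = 0}
    hK := fun n u hu => hu.elim (fun h => Or.inl (hGm n u h)) fun h => Or.inr (by
      rw [hfix n u hu]
      exact hGm' n _ h)
    v := v
    L := fun n => {u | G n u * G' n (H n u) * G (n + 1) u = 0}
    hv := h2
    hL := fun n u hu => by
      change G n u * G' n (H n u) * G (n + 1) u = 0
      rw [mul_eq_zero.2 hu, zero_mul]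
    w := w
    C := fun n => {x | G n ((H n).symm x) * G' n x = 0}
    hw := h3
    hC := fun n u hu => by
      change G n ((H n).symm (H n u)) * G' n (H n u) = 0
      rw [Homeomorph.symm_apply_apply]
      exact mul_eq_zero.2 hu
    hΦ := h4
    hΦ' := h5
    hΨ := h6
    hΨ' := h7 }, fun n => rfl, fun n u hu => (hH n).ae u hu⟩

/-- **The construction.** -/
theorem exists_homeo (proj : ℕ → X → Y) (G : ℕ → (ℕ → X × V) → ℝ) (G' : ℕ → (ℕ → X × V') → ℝ)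
    (hG : ∀ n, Continuous (G n)) (hG' : ∀ n, Continuous (G' n))
    (hGm : ∀ n u, G n u = 0 → G (n + 1) u = 0) (hGm' : ∀ n u, G' n u = 0 → G' (n + 1) u = 0)
    (hs : HalfStep (V' := V') proj G) (hs' : HalfStep (V' := V) proj G')
    (H0 : (ℕ → X × V) ≃ₜ (ℕ → X × V')) (hH0 : Good proj G G' 0 H0)
    (P : (ℕ → X × V) → Prop) (Q : (ℕ → X × V') → Prop) (hP : ∀ u, P u ↔ ∃ n, G n u = 0)
    (hQ : ∀ g, Q g ↔ ∃ n, G' n g = 0) (hPQ : ∀ u g, AE u g → (P u ↔ Q g)) :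
    ∃ h : {u // P u} ≃ₜ {g // Q g}, ∀ u, AE u.1 (h u).1 := by
  obtain ⟨l, hl, ha⟩ := exists_ladder proj G G' hG hG' hGm hGm' hs hs' H0 hH0
  have h1 : ∀ u, P u ↔ ∃ n, u ∈ l.K n := by
    intro u
    constructor
    · intro hu
      obtain ⟨n, hn⟩ := (hP u).1 hu
      exact ⟨n, by rw [hl]; exact Or.inl hn⟩
    · rintro ⟨n, hn⟩
      have h2 := ha n u hn
      rw [hl] at hn
      rcases hn with hn | hn
      · exact (hP u).2 ⟨n, hn⟩
      · exact (hPQ _ _ h2).2 ((hQ _).2 ⟨n, hn⟩)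
  have h2 : ∀ g, (∃ n, g ∈ l.H n '' l.K n) ↔ Q g := by
    intro g
    constructor
    · rintro ⟨n, u, hu, rfl⟩
      exact (hPQ u _ (ha n u hu)).1 ((h1 u).2 ⟨n, hu⟩)
    · intro hg
      obtain ⟨n, hn⟩ := (hQ g).1 hg
      refine ⟨n, (l.H n).symm g, ?_, (l.H n).apply_symm_apply g⟩
      rw [hl]
      exact Or.inr (by rw [Homeomorph.apply_symm_apply]; exact hn)
  refine ⟨((Homeomorph.refl _).subtype h1).trans (l.homeo.trans
    ((Homeomorph.refl _).subtype h2)), ?_⟩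
  rintro ⟨u, hu⟩
  obtain ⟨n, hn⟩ := (h1 u).1 hu
  have h3 := l.homeo_apply ⟨u, (h1 u).1 hu⟩ hn
  change AE u (l.homeo ⟨u, (h1 u).1 hu⟩).1
  rw [h3]
  exact ha n u hn

end Pool.Agent.CPY
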