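import Pool.Agent.CPY.Defs
import Pool.Agent.CPB.Dep

/-!
# Existence of cut-off sequences for zero sets

Continuous functions on a countable power of a dense subspace of `ℝ^I` depend (continuously) on
countably many coordinates. So a zero set `C` has cut-off sequences: `w k x` measures the distance
of `x` from `C` in those of these coordinates which lie in the blocks before `k`.
-/

set_option autoImplicit false

namespace Pool.Agent.CPY

open Set Filter Topology

section dist

variable {Z I : Type} {A : Set (ℕ × I)} [Encodable A]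

/-- the terms of the distance -/
noncomputable def gT (e : Z → I → ℝ) (k : ℕ) (x c : ℕ → Z) (a : A) : ℝ :=
  if a.1.1 < k then (1 / 2 : ℝ) ^ Encodable.encode a * min 1 |e (x a.1.1) a.1.2 - e (c a.1.1) a.1.2|
  else 0

/-- the distance in the coordinates of `A` in the blocks before `k` -/
noncomputable def gD (A : Set (ℕ × I)) [Encodable A] (e : Z → I → ℝ) (k : ℕ) (x c : ℕ → Z) : ℝ :=
  ∑' a : A, gT e k x c a

variable {e : Z → I → ℝ} {k : ℕ} {x y c : ℕ → Z}

lemma gT_nonneg (a : A) : 0 ≤ gT e k x c a := by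
  unfold gT
  split_ifs
  · positivity
  · exact le_rfl

lemma gT_le (a : A) : gT e k x c a ≤ (1 / 2 : ℝ) ^ Encodable.encode a := by
  unfold gT
  split_ifs
  · exact mul_le_of_le_one_right (by positivity) (min_le_left _ _)
  · positivity

lemma gT_abs (a : A) : ‖gT e k x c a‖ ≤ (1 / 2 : ℝ) ^ Encodable.encode a := by
  rw [Real.norm_eq_abs, abs_of_nonneg (gT_nonneg a)]
  exact gT_le a

lemma gT_sum : Summable (gT (A := A) e k x c) :=
  Summable.of_norm_bounded summable_geometric_two_encode (fun a => gT_abs a)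

lemma gT_tri (a : A) : gT e k x c a ≤ gT e k x y a + gT e k y c a := by
  unfold gT
  split_ifs
  · rw [← mul_add]
    refine mul_le_mul_of_nonneg_left ?_ (by positivity)
    have h := abs_sub_le (e (x a.1.1) a.1.2) (e (y a.1.1) a.1.2) (e (c a.1.1) a.1.2)
    have h1 : 0 ≤ |e (x a.1.1) a.1.2 - e (y a.1.1) a.1.2| := abs_nonneg _
    have h2 : 0 ≤ |e (y a.1.1) a.1.2 - e (c a.1.1) a.1.2| := abs_nonneg _
    rcases le_total 1 |e (x a.1.1) a.1.2 - e (y a.1.1) a.1.2| with h3 | h3
    · rw [min_eq_left h3]
      have := min_le_left 1 |e (x a.1.1) a.1.2 - e (c a.1.1) a.1.2|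
      have h5 : 0 ≤ min 1 |e (y a.1.1) a.1.2 - e (c a.1.1) a.1.2| := le_min zero_le_one h2
      linarith
    · rcases le_total 1 |e (y a.1.1) a.1.2 - e (c a.1.1) a.1.2| with h4 | h4
      · rw [min_eq_left h4]
        have := min_le_left 1 |e (x a.1.1) a.1.2 - e (c a.1.1) a.1.2|
        have h5 : 0 ≤ min 1 |e (x a.1.1) a.1.2 - e (y a.1.1) a.1.2| := le_min zero_le_one h1
        linarith
      · rw [min_eq_right h3, min_eq_right h4]
        exact (min_le_right _ _).trans h
  · simp

lemma gD_nonneg : 0 ≤ gD A e k x c := tsum_nonneg fun a => gT_nonneg a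

lemma gD_tri : gD A e k x c ≤ gD A e k x y + gD A e k y c := by
  unfold gD
  rw [← gT_sum.tsum_add gT_sum]
  exact gT_sum.tsum_le_tsum (fun a => gT_tri a) (gT_sum.add gT_sum)

lemma gD_self : gD A e k x x = 0 := by
  unfold gD
  have : ∀ a : A, gT e k x x a = 0 := by
    intro a
    unfold gT
    simp
  simp [this]

lemma gD_comm : gD A e k x c = gD A e k c x := by
  unfold gD
  congr 1
  ext a
  unfold gT
  rw [abs_sub_comm]

lemma gD_dep (h : ∀ j < k, x j = y j) : gD A e k x c = gD A e k y c := by
  unfold gD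
  congr 1
  ext a
  unfold gT
  split_ifs with h1
  · rw [h _ h1]
  · rfl

lemma gD_succ : gD A e k x c ≤ gD A e (k + 1) x c := by
  refine gT_sum.tsum_le_tsum (fun a => ?_) gT_sum
  unfold gT
  by_cases h : a.1.1 < k
  · rw [if_pos h, if_pos (by omega)]
  · rw [if_neg h]
    split_ifs
    · positivity
    · exact le_rfl

lemma gD_ge (a : A) : gT e k x c a ≤ gD A e k x c :=
  gT_sum.le_tsum a (fun b _ => gT_nonneg b)

variable [TopologicalSpace Z]

lemma gD_cont (he : ∀ i, Continuous fun z => e z i) : Continuous fun y => gD A e k x y := by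
  unfold gD
  refine continuous_tsum (fun a => ?_) summable_geometric_two_encode (fun a y => gT_abs a)
  unfold gT
  split_ifs
  · refine continuous_const.mul (continuous_const.min ?_)
    exact (continuous_const.sub ((he _).comp (continuous_apply _))).abs
  · exact continuous_const

/-- the distance from the set `C` -/
noncomputable def gI (A : Set (ℕ × I)) [Encodable A] (e : Z → I → ℝ) (C : Set (ℕ → Z)) (k : ℕ)
    (x : ℕ → Z) : ℝ :=
  ⨅ c : C, gD A e k x c

variable {C : Set (ℕ → Z)}

omit [TopologicalSpace Z] in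
lemma gI_bdd : BddBelow (range fun c : C => gD A e k x c) :=
  ⟨0, by rintro _ ⟨c, rfl⟩; exact gD_nonneg⟩

omit [TopologicalSpace Z] in
lemma gI_nonneg : 0 ≤ gI A e C k x := Real.iInf_nonneg fun _ => gD_nonneg

omit [TopologicalSpace Z] in
lemma gI_le (c : C) : gI A e C k x ≤ gD A e k x c := ciInf_le gI_bdd c

omit [TopologicalSpace Z] in
lemma gI_tri [Nonempty C] : gI A e C k x ≤ gD A e k x y + gI A e C k y := by
  rw [gI, gI, ← sub_le_iff_le_add']
  refine le_ciInf fun c => ?_
  have h1 : gI A e C k x ≤ gD A e k x c := gI_le c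
  have h2 : gD A e k x c ≤ gD A e k x y + gD A e k y c := gD_tri
  rw [gI] at h1
  linarith

lemma gI_cont [Nonempty C] (he : ∀ i, Continuous fun z => e z i) : Continuous (gI A e C k) := by
  rw [continuous_iff_continuousAt]
  intro x
  have h1 : Tendsto (fun y => gD A e k x y) (𝓝 x) (𝓝 0) := by
    have := (gD_cont (A := A) (k := k) (x := x) he).tendsto x
    rwa [gD_self] at this
  rw [ContinuousAt, tendsto_iff_dist_tendsto_zero]
  refine squeeze_zero (fun y => dist_nonneg) (fun y => ?_) h1
  rw [Real.dist_eq, abs_le]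
  have h2 : gI A e C k x ≤ gD A e k x y + gI A e C k y := gI_tri
  have h3 : gI A e C k y ≤ gD A e k y x + gI A e C k x := gI_tri
  rw [gD_comm] at h3
  constructor <;> linarith

omit [TopologicalSpace Z] in
lemma gI_dep (h : ∀ j < k, x j = y j) : gI A e C k x = gI A e C k y := by
  unfold gI
  congr 1
  ext c
  exact gD_dep h

omit [TopologicalSpace Z] in
lemma gI_succ [Nonempty C] : gI A e C k x ≤ gI A e C (k + 1) x :=
  le_ciInf fun c => (gI_le c).trans gD_succ

omit [TopologicalSpace Z] in
lemma gI_mono [Nonempty C] {l : ℕ} (h : k ≤ l) : gI A e C k x ≤ gI A e C l x := by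
  induction l, h using Nat.le_induction with
  | base => exact le_rfl
  | succ n _ ih => exact ih.trans gI_succ

omit [TopologicalSpace Z] in
lemma gI_mem (h : x ∈ C) : gI A e C k x = 0 :=
  le_antisymm ((gI_le ⟨x, h⟩).trans gD_self.le) gI_nonneg

end dist

/-- **Lemma 2.** A zero set in a countable power of a dense subspace of `ℝ^I` has cut-off
sequences. -/
theorem exists_cutoff {Z I : Type} [TopologicalSpace Z] (e : Z → I → ℝ) (he : IsInducing e)
    (hd : DenseRange e) (F : (ℕ → Z) → ℝ) (hF : Continuous F) (n : ℕ) :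
    ∃ w : ℕ → (ℕ → Z) → ℝ, IsCutoff w {x | F x = 0} n := by
  classical
  rcases ({x | F x = 0} : Set (ℕ → Z)).eq_empty_or_nonempty with hC | hC
  · rw [hC]
    refine ⟨fun k _ => if k < n then 0 else 1, fun k => continuous_const, ?_, ?_, ?_, ?_, ?_, ?_, ?_⟩
    · intro k x
      split_ifs <;> norm_num
    · intro k x
      split_ifs <;> norm_num
    · intro k x x' _
      rfl
    · intro k x h
      rw [if_neg]
      intro h'
      rw [if_pos (by omega)] at h
      exact lt_irrefl _ h
    · intro k hk x
      exact if_pos hk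
    · intro x _
      exact ⟨n, by simp⟩
    · intro x hx
      exact absurd hx (notMem_empty x)
  have hne : Nonempty ({x | F x = 0} : Set (ℕ → Z)) := hC.to_subtype
  set C : Set (ℕ → Z) := {x | F x = 0} with hCdef
  -- the embedding of the power
  let E : (ℕ → Z) → (ℕ × I) → ℝ := fun x p => e (x p.1) p.2
  have hE : IsInducing E :=
    (Homeomorph.piCurry (X := ℕ) (Y := I) (Z := ℝ)).symm.isInducing.comp
      (IsInducing.piMap fun _ : ℕ => he)
  have hEd : DenseRange E :=
    (Homeomorph.piCurry (X := ℕ) (Y := I) (Z := ℝ)).symm.surjective.denseRange.comp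
      (DenseRange.piMap fun _ : ℕ => hd)
      (Homeomorph.piCurry (X := ℕ) (Y := I) (Z := ℝ)).symm.continuous
  have hei : ∀ i, Continuous fun z => e z i := fun i => (continuous_apply i).comp he.continuous
  obtain ⟨A, hA, hA'⟩ := Pool.Agent.CPB.countable_cont E hE hEd F hF
  have : Encodable A := hA.toEncodable
  -- points outside `C` have positive distance
  have hpos : ∀ x, x ∉ C → ∃ k, 0 < gI A e C k x := by
    intro x hx
    obtain ⟨J, hJ, δ, hδ, h⟩ := hA' x |F x| (abs_pos.2 hx)
    have hc : ∀ c : C, ∃ i ∈ J, δ ≤ |E x i - E c i| := by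
      intro c
      by_contra hcon
      push Not at hcon
      have h1 := h c (fun i hi => by rw [abs_sub_comm]; exact hcon i hi)
      have h2 : F c = 0 := c.2
      rw [h2, zero_sub, abs_neg] at h1
      exact lt_irrefl _ h1
    have hJne : J.Nonempty := by
      obtain ⟨i, hi, _⟩ := hc hne.some
      exact ⟨i, hi⟩
    -- a lower bound for the weights
    let wt : ℕ × I → ℝ := fun i => if hi : i ∈ A then (1 / 2 : ℝ) ^ Encodable.encode (⟨i, hi⟩ : A)
      else 1
    have hwt : ∀ i, 0 < wt i := by
      intro i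
      dsimp only [wt]
      split_ifs
      · positivity
      · exact one_pos
    refine ⟨J.sup (fun i => i.1 + 1), lt_of_lt_of_le
      (mul_pos ((Finset.lt_inf'_iff hJne).2 fun i _ => hwt i) (lt_min one_pos hδ) :
        0 < J.inf' hJne wt * min 1 δ) (le_ciInf fun c => ?_)⟩
    obtain ⟨i, hi, hi'⟩ := hc c
    refine le_trans ?_ (gD_ge (⟨i, hJ i hi⟩ : A))
    unfold gT
    have hlt : i.1 < J.sup (fun i => i.1 + 1) :=
      Nat.lt_of_succ_le (Finset.le_sup (f := fun i : ℕ × I => i.1 + 1) hi)
    rw [if_pos hlt]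
    have h3 : J.inf' hJne wt ≤ wt i := Finset.inf'_le _ hi
    have h4 : wt i = (1 / 2 : ℝ) ^ Encodable.encode (⟨i, hJ i hi⟩ : A) := dif_pos (hJ i hi)
    rw [h4] at h3
    exact mul_le_mul h3 (min_le_min_left 1 hi') (le_min zero_le_one hδ.le) (by positivity)
  -- the cut-offs
  refine ⟨fun k x => if k < n then 0 else max 0 (min 1 (2 ^ k * gI A e C k x - 1)),
    ?_, ?_, ?_, ?_, ?_, ?_, ?_, ?_⟩
  · intro k
    by_cases hk : k < n
    · simp only [if_pos hk]
      exact continuous_const
    · simp only [if_neg hk]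
      exact continuous_const.max (continuous_const.min
        ((continuous_const.mul (gI_cont hei)).sub continuous_const))
  · intro k x
    split_ifs
    · exact le_rfl
    · exact le_max_left _ _
  · intro k x
    split_ifs
    · exact zero_le_one
    · exact max_le zero_le_one (min_le_left _ _)
  · intro k x x' h
    rw [gI_dep h]
  · intro k x h
    by_cases hk : k < n
    · rw [if_pos hk] at h
      exact absurd h (lt_irrefl _)
    rw [if_neg hk] at h
    rw [if_neg (by omega)]
    have h1 : 0 < min 1 (2 ^ k * gI A e C k x - 1) := by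
      rcases lt_max_iff.1 h with h | h
      · exact absurd h (lt_irrefl _)
      · exact h
    have h2 : 0 < 2 ^ k * gI A e C k x - 1 := (lt_min_iff.1 h1).2
    have h3 : gI A e C k x ≤ gI A e C (k + 1) x := gI_succ
    have h4 : (2 : ℝ) ^ (k + 1) * gI A e C (k + 1) x ≥ 2 * (2 ^ k * gI A e C k x) := by
      rw [pow_succ, mul_comm ((2 : ℝ) ^ k) 2, mul_assoc]
      have : (2 : ℝ) ^ k * gI A e C k x ≤ 2 ^ k * gI A e C (k + 1) x :=
        mul_le_mul_of_nonneg_left h3 (by positivity)
      linarith
    rw [min_eq_left (by linarith), max_eq_right zero_le_one]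
  · intro k hk x
    exact if_pos hk
  · intro x hx
    obtain ⟨k, hk⟩ := hpos x hx
    obtain ⟨m, hm⟩ := pow_unbounded_of_one_lt (1 / gI A e C k x) (one_lt_two (α := ℝ))
    refine ⟨max n (max k m), ?_⟩
    rw [if_neg (by simp)]
    rw [lt_max_iff, lt_min_iff]
    right
    refine ⟨one_pos, ?_⟩
    have h1 : gI A e C k x ≤ gI A e C (max n (max k m)) x := gI_mono (by simp)
    have h2 : (2 : ℝ) ^ m ≤ 2 ^ (max n (max k m)) := pow_le_pow_right₀ one_le_two (by simp)
    have h3 : 1 < 2 ^ m * gI A e C k x := by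
      rwa [div_lt_iff₀ hk] at hm
    have h4 : (2 : ℝ) ^ m * gI A e C k x ≤ 2 ^ (max n (max k m)) * gI A e C (max n (max k m)) x :=
      mul_le_mul h2 h1 hk.le (by positivity)
    linarith
  · intro x hx k
    by_cases hk : k < n
    · simp only [if_pos hk]
      exact Filter.Eventually.of_forall fun _ => trivial
    simp only [if_neg hk]
    have h1 : Tendsto (fun y => 2 ^ k * gI A e C k y - 1) (𝓝 x) (𝓝 (2 ^ k * gI A e C k x - 1)) :=
      ((continuous_const.mul (gI_cont hei)).sub continuous_const).tendsto x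
    rw [gI_mem hx, mul_zero, zero_sub] at h1
    filter_upwards [h1.eventually (gt_mem_nhds (show (-1 : ℝ) < 0 by norm_num))] with y hy
    exact max_eq_left ((min_le_right _ _).trans hy.le)

end Pool.Agent.CPY
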