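import Mathlib
import Pool.Agent.CPY.Defs

/-!
# The half step: three shears
-/

set_option autoImplicit false
set_option linter.unusedSectionVars false

namespace Pool.Agent.CPY

open Set Filter Topology

/-- A shear is a homeomorphism. -/
theorem exists_shear {T : Type*} [AddCommGroup T] [TopologicalSpace T] [IsTopologicalAddGroup T]
    (δ : T → T) (hδ : Continuous δ) (h1 : ∀ x, δ (x + δ x) = δ x) (h2 : ∀ x, δ (x - δ x) = δ x) :
    ∃ Ψ : T ≃ₜ T, (∀ x, Ψ x = x + δ x) ∧ ∀ x, Ψ.symm x = x - δ x :=
  ⟨{ toFun := fun x => x + δ x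
     invFun := fun x => x - δ x
     left_inv := fun x => by
       change x + δ x - δ (x + δ x) = x
       rw [h1, add_sub_cancel_right]
     right_inv := fun x => by
       change x - δ x + δ (x - δ x) = x
       rw [h2, sub_add_cancel]
     continuous_toFun := continuous_id.add hδ
     continuous_invFun := continuous_id.sub hδ }, fun _ => rfl, fun _ => rfl⟩

section Cutoff

variable {Z : Type*} [TopologicalSpace Z] {w : ℕ → (ℕ → Z) → ℝ} {C : Set (ℕ → Z)} {n : ℕ}

theorem IsCutoff.one_of_lt (hw : IsCutoff w C n) {x : ℕ → Z} {k : ℕ} (hk : 0 < w k x) :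
    ∀ j, k < j → w j x = 1 := by
  intro j hj
  obtain ⟨d, rfl⟩ := Nat.exists_eq_add_of_lt hj
  induction d with
  | zero => exact hw.step k x hk
  | succ d ih =>
    have h1 := ih (by omega)
    exact hw.step (k + d + 1) x (by rw [h1]; exact one_pos)

/-- Invariance of the cut-offs. -/
theorem IsCutoff.inv (hw : IsCutoff w C n) {x x' : ℕ → Z} (h : ∀ k, w k x = 0 → x' k = x k)
    (k : ℕ) : w k x' = w k x := by
  classical
  by_cases hex : ∃ j, 0 < w j x
  · have h0 : ∀ j < Nat.find hex, w j x = 0 := fun j hj =>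
      le_antisymm (not_lt.1 (Nat.find_min hex hj)) (hw.nonneg j x)
    have h1 : ∀ j ≤ Nat.find hex, w j x' = w j x := fun j hj =>
      hw.dep j x' x fun i hi => h i (h0 i (hi.trans_le hj))
    rcases Nat.lt_or_ge (Nat.find hex) k with hk | hk
    · rw [hw.one_of_lt (Nat.find_spec hex) k hk,
        hw.one_of_lt (x := x') (k := Nat.find hex) (by
          rw [h1 _ le_rfl]
          exact Nat.find_spec hex) k hk]
    · exact h1 k hk
  · push Not at hex
    have h1 : x' = x := funext fun j => h j (le_antisymm (hex j) (hw.nonneg j x))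
    rw [h1]

end Cutoff

section Sel

variable {Z Y : Type*} [TopologicalSpace Z] [AddCommGroup Y] [Module ℝ Y] [TopologicalSpace Y]
  [IsTopologicalAddGroup Y] [ContinuousSMul ℝ Y]

/-- The previous term of a sequence. -/
def pv (f : ℕ → ℝ) : ℕ → ℝ
  | 0 => 0
  | j + 1 => f j

/-- Partial sums of the selection. -/
def selK (w : ℕ → (ℕ → Z) → ℝ) (g : ℝ → ℝ) (Φ : ℕ → (ℕ → Z) → Y) (K : ℕ) (x : ℕ → Z) : Y :=
  ∑ j ∈ Finset.range (K + 2), (g (w j x) - pv (fun i => g (w i x)) j) • Φ j x

open Classical in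
/-- Selection of the value at the position where the cut-offs begin. -/
noncomputable def sel (w : ℕ → (ℕ → Z) → ℝ) (g : ℝ → ℝ) (Φ : ℕ → (ℕ → Z) → Y) (x : ℕ → Z) : Y :=
  if h : ∃ k, 0 < w k x then
    g (w (Nat.find h) x) • Φ (Nat.find h) x + (1 - g (w (Nat.find h) x)) • Φ (Nat.find h + 1) x
  else 0

variable {w : ℕ → (ℕ → Z) → ℝ} {C : Set (ℕ → Z)} {n : ℕ} {g : ℝ → ℝ} {Φ : ℕ → (ℕ → Z) → Y}

theorem sel_eq_selK (hw : IsCutoff w C n) (g0 : g 0 = 0) (g1 : g 1 = 1) {x : ℕ → Z} {K : ℕ}
    (hK : 0 < w K x) : sel w g Φ x = selK w g Φ K x := by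
  classical
  have hex : ∃ k, 0 < w k x := ⟨K, hK⟩
  have h1 : sel w g Φ x = g (w (Nat.find hex) x) • Φ (Nat.find hex) x +
      (1 - g (w (Nat.find hex) x)) • Φ (Nat.find hex + 1) x := by
    unfold sel
    rw [dif_pos hex]
  rw [h1]
  have hle : Nat.find hex ≤ K := Nat.find_min' hex hK
  have hpos := Nat.find_spec hex
  have hmin : ∀ j < Nat.find hex, w j x = 0 := fun j hj =>
    le_antisymm (not_lt.1 (Nat.find_min hex hj)) (hw.nonneg j x)
  generalize Nat.find hex = k0 at hle hpos hmin
  have hone := hw.one_of_lt hpos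
  -- the partial sum up to `k0`
  have h2 : ∀ d, selK w g Φ (k0 + d) x = g (w k0 x) • Φ k0 x + (1 - g (w k0 x)) • Φ (k0 + 1) x := by
    intro d
    induction d with
    | zero =>
      unfold selK
      rw [Nat.add_zero, Finset.sum_range_succ, Finset.sum_range_succ, Finset.sum_eq_zero, zero_add]
      · have h3 : pv (fun i => g (w i x)) k0 = 0 := by
          rcases k0 with _ | k
          · rfl
          · change g (w k x) = 0
            rw [hmin k (Nat.lt_succ_self k), g0]
        have h4 : pv (fun i => g (w i x)) (k0 + 1) = g (w k0 x) := rfl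
        rw [h3, h4, sub_zero, hone (k0 + 1) (Nat.lt_succ_self k0), g1]
      · intro j hj
        rw [Finset.mem_range] at hj
        have h3 : pv (fun i => g (w i x)) j = 0 := by
          rcases j with _ | k
          · rfl
          · change g (w k x) = 0
            rw [hmin k (by omega), g0]
        rw [h3, hmin j hj, g0, sub_zero, zero_smul]
    | succ d ih =>
      rw [← ih]
      unfold selK
      rw [show k0 + (d + 1) + 2 = (k0 + d + 2) + 1 by omega, Finset.sum_range_succ]
      have h4 : pv (fun i => g (w i x)) (k0 + d + 2) = g (w (k0 + d + 1) x) := rfl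
      rw [h4, hone (k0 + d + 2) (by omega), hone (k0 + d + 1) (by omega), sub_self, zero_smul,
        add_zero]
  obtain ⟨d, rfl⟩ := Nat.exists_eq_add_of_le hle
  exact (h2 d).symm

theorem continuousAt_sel (hw : IsCutoff w C n) (g0 : g 0 = 0) (g1 : g 1 = 1) (hg : Continuous g)
    (hΦ : ∀ j, Continuous (Φ j)) {x : ℕ → Z} (hx : x ∉ C) : ContinuousAt (sel w g Φ) x := by
  obtain ⟨K, hK⟩ := hw.off x hx
  have h1 : Continuous (selK w g Φ K) := by
    unfold selK
    refine continuous_finsetSum _ fun j _ => Continuous.smul ?_ (hΦ j)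
    refine (hg.comp (hw.cont j)).sub ?_
    rcases j with _ | j
    · exact continuous_const
    · exact hg.comp (hw.cont j)
  have h2 : ∀ᶠ x' in 𝓝 x, 0 < w K x' := (hw.cont K).tendsto x |>.eventually (lt_mem_nhds hK)
  refine (h1.continuousAt (x := x)).congr ?_
  filter_upwards [h2] with x' hx'
  exact (sel_eq_selK hw g0 g1 hx').symm

theorem sel_first (Φ : ℕ → (ℕ → Z) → Y) (g : ℝ → ℝ) {x : ℕ → Z} {k0 : ℕ} (hpos : 0 < w k0 x)
    (hmin : ∀ j < k0, w j x = 0) :
    sel w g Φ x = g (w k0 x) • Φ k0 x + (1 - g (w k0 x)) • Φ (k0 + 1) x := by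
  classical
  have hex : ∃ k, 0 < w k x := ⟨k0, hpos⟩
  have h1 : Nat.find hex = k0 := by
    rw [Nat.find_eq_iff]
    exact ⟨hpos, fun j hj => by rw [hmin j hj]; exact lt_irrefl 0⟩
  unfold sel
  rw [dif_pos hex, h1]

/-- The beginning of the cut-offs. -/
theorem IsCutoff.exists_first (hw : IsCutoff w C n) {x : ℕ → Z} (hx : x ∉ C) :
    ∃ k0, 0 < w k0 x ∧ (∀ j < k0, w j x = 0) ∧ ∀ j, k0 < j → w j x = 1 := by
  classical
  have hex : ∃ k, 0 < w k x := hw.off x hx
  exact ⟨Nat.find hex, Nat.find_spec hex, fun j hj =>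
    le_antisymm (not_lt.1 (Nat.find_min hex hj)) (hw.nonneg j x),
    hw.one_of_lt (Nat.find_spec hex)⟩

theorem IsCutoff.zero_of_mem (hw : IsCutoff w C n) {x : ℕ → Z} (hx : x ∈ C) (k : ℕ) :
    w k x = 0 := (hw.near x hx k).self_of_nhds

end Sel

section Half

variable {X Y V : Type*}
  [AddCommGroup X] [Module ℝ X] [TopologicalSpace X] [IsTopologicalAddGroup X] [ContinuousSMul ℝ X]
  [AddCommGroup Y] [Module ℝ Y] [TopologicalSpace Y] [IsTopologicalAddGroup Y] [ContinuousSMul ℝ Y]
  [AddCommGroup V] [Module ℝ V] [TopologicalSpace V] [IsTopologicalAddGroup V] [ContinuousSMul ℝ V]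

variable {w : ℕ → (ℕ → X × V) → ℝ} {C : Set (ℕ → X × V)} {n : ℕ}

/-- The direction of the line through `x`. -/
noncomputable def dir (w : ℕ → (ℕ → X × V) → ℝ) (inc : Y →L[ℝ] X) (x : ℕ → X × V) (y : Y) :
    ℕ → X × V :=
  fun k => (((2 : ℝ) ^ k * w k x) • inc y, 0)

theorem dir_zero (inc : Y →L[ℝ] X) (x : ℕ → X × V) {y : Y} {k : ℕ} (h : w k x = 0) :
    dir w inc x y k = 0 := by
  simp only [dir, h, mul_zero, zero_smul]
  rfl

theorem dir_inv (hw : IsCutoff w C n) (inc : Y →L[ℝ] X) (x : ℕ → X × V) (y : Y) (k : ℕ) :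
    w k (x + dir w inc x y) = w k x :=
  hw.inv (fun k hk => by rw [Pi.add_apply, dir_zero inc x hk, add_zero]) k

theorem dir_congr (inc : Y →L[ℝ] X) {x x' : ℕ → X × V} (h : ∀ k, w k x' = w k x) (y : Y) :
    dir w inc x' y = dir w inc x y := by
  funext k
  simp only [dir, h]

theorem dir_add (inc : Y →L[ℝ] X) (x : ℕ → X × V) (y y' : Y) :
    dir w inc x (y + y') = dir w inc x y + dir w inc x y' := by
  funext k
  simp only [dir, Pi.add_apply, map_add, smul_add, Prod.mk_add_mk, add_zero]

theorem dir_neg (inc : Y →L[ℝ] X) (x : ℕ → X × V) (y : Y) :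
    dir w inc x (-y) = -dir w inc x y := by
  funext k
  simp only [dir, Pi.neg_apply, map_neg, smul_neg, Prod.neg_mk, neg_zero]

/-- A shear in the direction of the lines is continuous if its amount is continuous off `C`. -/
theorem continuous_dir (hw : IsCutoff w C n) (inc : Y →L[ℝ] X) {al : (ℕ → X × V) → Y}
    (hal : ∀ x, x ∉ C → ContinuousAt al x) : Continuous fun x => dir w inc x (al x) := by
  refine continuous_pi fun k => ?_
  rw [continuous_iff_continuousAt]
  intro x
  by_cases hx : x ∈ C
  · have h1 : (fun x' => dir w inc x' (al x') k) =ᶠ[𝓝 x] fun _ => 0 := by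
      filter_upwards [hw.near x hx k] with x' hx'
      exact dir_zero inc x' hx'
    exact (continuousAt_const (y := (0 : X × V))).congr h1.symm
  · unfold dir
    refine ContinuousAt.prodMk (ContinuousAt.smul ?_ ?_) continuousAt_const
    · exact (continuous_const.mul (hw.cont k)).continuousAt
    · exact inc.continuous.continuousAt.comp (hal x hx)

theorem exists_dir_shear (hw : IsCutoff w C n) (inc : Y →L[ℝ] X) (al : (ℕ → X × V) → Y)
    (hal : ∀ x, x ∉ C → ContinuousAt al x) (hinv : ∀ x y, al (x + dir w inc x y) = al x) :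
    ∃ Ψ : (ℕ → X × V) ≃ₜ (ℕ → X × V), (∀ x, Ψ x = x + dir w inc x (al x)) ∧
      ∀ x, Ψ.symm x = x - dir w inc x (al x) := by
  refine exists_shear (fun x => dir w inc x (al x)) (continuous_dir hw inc hal) ?_ ?_
  · intro x
    change dir w inc (x + dir w inc x (al x)) (al (x + dir w inc x (al x))) = dir w inc x (al x)
    rw [dir_congr inc (dir_inv hw inc x _), hinv]
  · intro x
    change dir w inc (x - dir w inc x (al x)) (al (x - dir w inc x (al x))) = dir w inc x (al x)
    rw [sub_eq_add_neg, ← dir_neg, dir_congr inc (dir_inv hw inc x _), hinv]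

variable {V' : Type*} [AddCommGroup V'] [Module ℝ V'] [TopologicalSpace V']
  [IsTopologicalAddGroup V'] [ContinuousSMul ℝ V']

/-- The strength of the code in block `k`. -/
noncomputable def cd (w : ℕ → (ℕ → X × V) → ℝ) (k : ℕ) (x : ℕ → X × V) : ℝ :=
  min 1 (3 * w k x) * min 1 (3 - 3 * pv (fun i => w i x) k)

/-- The cut-off for reading the code. -/
noncomputable def et (s : ℝ) : ℝ := max 0 (min 1 (3 * s - 1))

theorem et_zero : et 0 = 0 := by
  norm_num [et]

theorem et_one : et 1 = 1 := by
  norm_num [et]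

theorem continuous_et : Continuous et := by
  unfold et
  fun_prop

theorem et_pos {s : ℝ} (h : et s ≠ 0) : 1 / 3 < s := by
  by_contra hs
  push Not at hs
  apply h
  unfold et
  rw [max_eq_left]
  exact (min_le_right _ _).trans (by linarith)

theorem et_lt {s : ℝ} (h : 1 - et s ≠ 0) : s < 2 / 3 := by
  by_contra hs
  push Not at hs
  apply h
  unfold et
  rw [min_eq_left (by linarith), max_eq_right zero_le_one, sub_self]

/-- **The half step.** -/
theorem half_step (proj : ℕ → X →L[ℝ] Y) (inc : ℕ → Y →L[ℝ] X)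
    (hpi : ∀ c y, proj c (inc c y) = y) (hpi' : ∀ c c' y, c ≠ c' → proj c' (inc c y) = 0)
    (BY : Set Y) (Yj : ℕ → (ℕ → Y) → Y) (hYc : ∀ j, Continuous (Yj j))
    (hY0 : ∀ j a, (∀ i, a i ∈ BY) → Yj j a = 0)
    (hYs : ∀ j a a' y, (∀ i, j ≤ i → a' i = a i + (2 : ℝ) ^ i • y) → Yj j a' = Yj j a + y)
    (c : ℕ) (hc : 1 ≤ c) (H : (ℕ → X × V') ≃ₜ (ℕ → X × V))
    (hI : ∀ u k c', c ≤ c' → proj c' (H u k).1 = proj c' (u k).1)
    (Code : (ℕ → X × V') → Y) (hCode : Continuous Code) (Dec : Y → (ℕ → X × V'))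
    (hDec : Continuous Dec) (B : Set (ℕ → X × V')) (hB : ∀ u ∈ B, Dec (Code u) = u)
    (hBa : ∀ u ∈ B, ∀ k, proj c (u k).1 ∈ BY) (hw : IsCutoff w C n) :
    ∃ Ψ : (ℕ → X × V) ≃ₜ (ℕ → X × V),
      (∀ x k, w k x = 0 → Ψ x k = x k) ∧ (∀ x k, w k x = 0 → Ψ.symm x k = x k) ∧
      (∀ u ∈ B, H u ∉ C → ∀ᶠ k in atTop, (Ψ (H u) k).1 = (u k).1) ∧
      (∀ x k c', c < c' → proj c' (Ψ x k).1 = proj c' (x k).1) := by
  -- the amount of the code in a point
  let a : (ℕ → X × V) → ℕ → Y := fun x i => proj c (x i).1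
  have ha : Continuous a := continuous_pi fun i =>
    (proj c).continuous.comp (continuous_fst.comp (continuous_apply i))
  let ys : (ℕ → X × V) → Y := sel w id fun j x => Yj (j + 1) (a x)
  have hysc : ∀ x, x ∉ C → ContinuousAt ys x := fun x hx =>
    continuousAt_sel hw rfl rfl continuous_id (fun j => (hYc (j + 1)).comp ha) hx
  have hysa : ∀ x y, x ∉ C → ys (x + dir w (inc c) x y) = ys x + y := by
    intro x y hx
    obtain ⟨k0, h1, h2, h3⟩ := hw.exists_first hx
    have hinv := dir_inv hw (inc c) x y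
    have e1 : ys x = w k0 x • Yj (k0 + 1) (a x) + (1 - w k0 x) • Yj (k0 + 1 + 1) (a x) :=
      sel_first _ _ h1 h2
    have e2 : ys (x + dir w (inc c) x y) = w k0 (x + dir w (inc c) x y) •
        Yj (k0 + 1) (a (x + dir w (inc c) x y)) + (1 - w k0 (x + dir w (inc c) x y)) •
        Yj (k0 + 1 + 1) (a (x + dir w (inc c) x y)) :=
      sel_first _ _ (by rw [hinv]; exact h1) (fun j hj => by rw [hinv]; exact h2 j hj)
    have e3 : ∀ i, k0 < i → a (x + dir w (inc c) x y) i = a x i + (2 : ℝ) ^ i • y := by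
      intro i hi
      change proj c ((x i).1 + ((2 : ℝ) ^ i * w i x) • inc c y) = proj c (x i).1 + (2 : ℝ) ^ i • y
      rw [map_add, map_smul, hpi, h3 i hi, mul_one]
    rw [e1, e2, hinv, hYs (k0 + 1) (a x) _ y (fun i hi => e3 i hi),
      hYs (k0 + 1 + 1) (a x) _ y (fun i hi => e3 i (by omega))]
    module
  -- shear A
  let sl : (ℕ → X × V) → (ℕ → X × V) := fun x => x - dir w (inc c) x (ys x)
  have hsl : Continuous sl := continuous_id.sub (continuous_dir hw (inc c) hysc)
  have hsla : ∀ x y, sl (x + dir w (inc c) x y) = sl x := by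
    intro x y
    by_cases hx : x ∈ C
    · have h1 : dir w (inc c) x y = 0 := funext fun k => dir_zero _ _ (hw.zero_of_mem hx k)
      rw [h1, add_zero]
    · change x + dir w (inc c) x y - dir w (inc c) (x + dir w (inc c) x y)
        (ys (x + dir w (inc c) x y)) = x - dir w (inc c) x (ys x)
      rw [hysa x y hx, dir_congr (inc c) (dir_inv hw (inc c) x y), dir_add]
      abel
  obtain ⟨A, hA, hA'⟩ := exists_dir_shear hw (inc c) (fun x => Code (H.symm (sl x)))
    (fun x _ => (hCode.comp (H.symm.continuous.comp hsl)).continuousAt)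
    (fun x y => by rw [hsla])
  -- shear B
  let p : (ℕ → X × V) → (ℕ → X × V') := fun x => Dec (ys x)
  have hpc : ∀ x, x ∉ C → ContinuousAt p x := fun x hx => hDec.continuousAt.comp (hysc x hx)
  let δ : (ℕ → X × V) → (ℕ → X × V) := fun x k =>
    (w k x • ((p x k).1 - (H (p x) k).1) + inc 0 (cd w k x •
      (ys x - proj 0 ((1 - w k x) • (H (p x) k).1 + w k x • (p x k).1))),
      -(w k x • (H (p x) k).2))
  have hcdz : ∀ x k, w k x = 0 → cd w k x = 0 := by
    intro x k h
    unfold cd
    rw [h, mul_zero, min_eq_right zero_le_one, zero_mul]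
  have hδz : ∀ x k, w k x = 0 → δ x k = 0 := by
    intro x k h
    change (_, _) = _
    rw [h, hcdz x k h, zero_smul, zero_smul, zero_smul, map_zero, add_zero, neg_zero]
    rfl
  have hδp : ∀ x k c', c ≤ c' → proj c' (δ x k).1 = 0 := by
    intro x k c' hc'
    change proj c' (w k x • ((p x k).1 - (H (p x) k).1) + inc 0 (cd w k x •
      (ys x - proj 0 ((1 - w k x) • (H (p x) k).1 + w k x • (p x k).1)))) = 0
    rw [map_add, map_smul, map_sub, hI (p x) k c' hc', sub_self, smul_zero, zero_add,
      hpi' 0 c' _ (by omega)]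
  have hcdc : ∀ k, Continuous (cd w k) := by
    intro k
    unfold cd
    refine (continuous_const.min (continuous_const.mul (hw.cont k))).mul
      (continuous_const.min (continuous_const.sub (continuous_const.mul ?_)))
    rcases k with _ | k
    · exact continuous_const
    · exact hw.cont k
  have hδc : Continuous δ := by
    refine continuous_pi fun k => ?_
    rw [continuous_iff_continuousAt]
    intro x
    by_cases hx : x ∈ C
    · have h1 : (fun x' => δ x' k) =ᶠ[𝓝 x] fun _ => 0 := by
        filter_upwards [hw.near x hx k] with x' hx'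
        exact hδz x' k hx'
      exact (continuousAt_const (y := (0 : X × V))).congr h1.symm
    · have c1 : ContinuousAt (fun x => p x k) x :=
        (continuous_apply k).continuousAt.comp (hpc x hx)
      have c2 : ContinuousAt (fun x => H (p x) k) x :=
        (continuous_apply k).continuousAt.comp (H.continuous.continuousAt.comp (hpc x hx))
      have c3 : ContinuousAt (w k) x := (hw.cont k).continuousAt
      have c4 : ContinuousAt (cd w k) x := (hcdc k).continuousAt
      refine ContinuousAt.prodMk (ContinuousAt.add (c3.smul (c1.fst.sub c2.fst)) ?_)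
        (c3.smul c2.snd).neg
      refine (inc 0).continuous.continuousAt.comp (c4.smul ((hysc x hx).sub ?_))
      exact (proj 0).continuous.continuousAt.comp
        (((continuousAt_const.sub c3).smul c2.fst).add (c3.smul c1.fst))
  have hwδ : ∀ x k, w k (x + δ x) = w k x := fun x k =>
    hw.inv (fun j hj => by rw [Pi.add_apply, hδz x j hj, add_zero]) k
  have hwδ' : ∀ x k, w k (x - δ x) = w k x := fun x k =>
    hw.inv (fun j hj => by rw [Pi.sub_apply, hδz x j hj, sub_zero]) k
  have hsel : ∀ x x', (∀ k, w k x' = w k x) → a x' = a x → ys x' = ys x := by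
    intro x x' h1 h2
    by_cases hx : x ∈ C
    · have h3 : ∀ y, (∀ k, w k y = 0) → ys y = 0 := by
        intro y hy
        change sel w id _ y = 0
        unfold sel
        rw [dif_neg]
        rintro ⟨k, hk⟩
        rw [hy k] at hk
        exact lt_irrefl _ hk
      rw [h3 x (hw.zero_of_mem hx), h3 x' fun k => by rw [h1, hw.zero_of_mem hx]]
    · obtain ⟨k0, h3, h4, -⟩ := hw.exists_first hx
      have e1 : ys x = w k0 x • Yj (k0 + 1) (a x) + (1 - w k0 x) • Yj (k0 + 1 + 1) (a x) :=
        sel_first _ _ h3 h4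
      have e2 : ys x' = w k0 x' • Yj (k0 + 1) (a x') + (1 - w k0 x') • Yj (k0 + 1 + 1) (a x') :=
        sel_first _ _ (by rw [h1]; exact h3) (fun j hj => by rw [h1]; exact h4 j hj)
      rw [e1, e2, h1, h2]
  have hδ : ∀ x x', (∀ k, w k x' = w k x) → a x' = a x → δ x' = δ x := by
    intro x x' h1 h2
    have h3 := hsel x x' h1 h2
    have h4 : p x' = p x := by
      change Dec (ys x') = Dec (ys x)
      rw [h3]
    have h5 : ∀ k, cd w k x' = cd w k x := by
      intro k
      unfold cd
      simp only [h1]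
    funext k
    change (_, _) = (_, _)
    rw [h1, h3, h4, h5]
  obtain ⟨Bs, hBs, hBs'⟩ := exists_shear δ hδc
    (fun x => hδ x _ (hwδ x) (funext fun i => by
      change proj c ((x i).1 + (δ x i).1) = proj c (x i).1
      rw [map_add, hδp x i c le_rfl, add_zero]))
    (fun x => hδ x _ (hwδ' x) (funext fun i => by
      change proj c ((x i).1 - (δ x i).1) = proj c (x i).1
      rw [map_sub, hδp x i c le_rfl, sub_zero]))
  -- shear C
  let ch : (ℕ → X × V) → Y := sel w et fun j x => proj 0 (x j).1
  have hchc : ∀ x, x ∉ C → ContinuousAt ch x := fun x hx =>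
    continuousAt_sel hw et_zero et_one continuous_et
      (fun j => (proj 0).continuous.comp (continuous_fst.comp (continuous_apply j))) hx
  have hcha : ∀ x y, ch (x + dir w (inc c) x y) = ch x := by
    intro x y
    by_cases hx : x ∈ C
    · have h1 : dir w (inc c) x y = 0 := funext fun k => dir_zero _ _ (hw.zero_of_mem hx k)
      rw [h1, add_zero]
    · obtain ⟨k0, h1, h2, -⟩ := hw.exists_first hx
      have hinv := dir_inv hw (inc c) x y
      have e1 : ch x = et (w k0 x) • proj 0 (x k0).1 + (1 - et (w k0 x)) • proj 0 (x (k0 + 1)).1 :=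
        sel_first _ _ h1 h2
      have e2 : ch (x + dir w (inc c) x y) = et (w k0 (x + dir w (inc c) x y)) •
          proj 0 ((x + dir w (inc c) x y) k0).1 + (1 - et (w k0 (x + dir w (inc c) x y))) •
          proj 0 ((x + dir w (inc c) x y) (k0 + 1)).1 :=
        sel_first _ _ (by rw [hinv]; exact h1) (fun j hj => by rw [hinv]; exact h2 j hj)
      have e3 : ∀ i, proj 0 ((x + dir w (inc c) x y) i).1 = proj 0 (x i).1 := by
        intro i
        change proj 0 ((x i).1 + ((2 : ℝ) ^ i * w i x) • inc c y) = proj 0 (x i).1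
        rw [map_add, map_smul, hpi' c 0 y (by omega), smul_zero, add_zero]
      rw [e1, e2, hinv, e3, e3]
  obtain ⟨Cs, hCs, hCs'⟩ := exists_dir_shear hw (inc c) (fun x => -ch x)
    (fun x hx => (hchc x hx).neg) (fun x y => by rw [hcha])
  -- the three maps do not touch the near blocks
  have hAz : ∀ x k, w k x = 0 → A x k = x k := by
    intro x k h
    rw [hA, Pi.add_apply, dir_zero _ _ h, add_zero]
  have hAz' : ∀ x k, w k x = 0 → A.symm x k = x k := by
    intro x k h
    rw [hA', Pi.sub_apply, dir_zero _ _ h, sub_zero]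
  have hBz : ∀ x k, w k x = 0 → Bs x k = x k := by
    intro x k h
    rw [hBs, Pi.add_apply, hδz x k h, add_zero]
  have hBz' : ∀ x k, w k x = 0 → Bs.symm x k = x k := by
    intro x k h
    rw [hBs', Pi.sub_apply, hδz x k h, sub_zero]
  have hCz : ∀ x k, w k x = 0 → Cs x k = x k := by
    intro x k h
    rw [hCs, Pi.add_apply, dir_zero _ _ h, add_zero]
  have hCz' : ∀ x k, w k x = 0 → Cs.symm x k = x k := by
    intro x k h
    rw [hCs', Pi.sub_apply, dir_zero _ _ h, sub_zero]
  have hwA : ∀ x k, w k (A x) = w k x := fun x k => hw.inv (hAz x) k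
  have hwA' : ∀ x k, w k (A.symm x) = w k x := fun x k => hw.inv (hAz' x) k
  have hwB : ∀ x k, w k (Bs x) = w k x := fun x k => hw.inv (hBz x) k
  have hwB' : ∀ x k, w k (Bs.symm x) = w k x := fun x k => hw.inv (hBz' x) k
  have hwC' : ∀ x k, w k (Cs.symm x) = w k x := fun x k => hw.inv (hCz' x) k
  refine ⟨A.trans (Bs.trans Cs), ?_, ?_, ?_, ?_⟩
  · intro x k h
    change Cs (Bs (A x)) k = x k
    rw [hCz _ k (by rw [hwB, hwA, h]), hBz _ k (by rw [hwA, h]), hAz _ k h]
  · intro x k h
    change A.symm (Bs.symm (Cs.symm x)) k = x k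
    rw [hAz' _ k (by rw [hwB', hwC', h]), hBz' _ k (by rw [hwC', h]), hCz' _ k h]
  · intro u hu huC
    have hx1 : H.symm (H u) = u := H.symm_apply_apply u
    generalize hxe : H u = x at *
    obtain ⟨k0, h1, h2, h3⟩ := hw.exists_first huC
    have hax : ∀ i, a x i ∈ BY := by
      intro i
      change proj c (x i).1 ∈ BY
      rw [← hxe, hI u i c le_rfl]
      exact hBa u hu i
    have hys0 : ys x = 0 := by
      have e1 : ys x = w k0 x • Yj (k0 + 1) (a x) + (1 - w k0 x) • Yj (k0 + 1 + 1) (a x) :=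
        sel_first _ _ h1 h2
      rw [e1, hY0 _ _ hax, hY0 _ _ hax, smul_zero, smul_zero, add_zero]
    have hsl0 : sl x = x := by
      change x - dir w (inc c) x (ys x) = x
      have h4 : dir w (inc c) x (0 : Y) = 0 := by
        have h5 := dir_add (w := w) (inc c) x 0 0
        rw [add_zero] at h5
        exact (add_eq_left.1 h5.symm)
      rw [hys0, h4, sub_zero]
    -- after A
    have hAx : A x = x + dir w (inc c) x (Code u) := by
      rw [hA, hsl0, hx1]
    have hysA : ys (A x) = Code u := by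
      rw [hAx, hysa x _ huC, hys0, zero_add]
    have hpA : p (A x) = u := by
      change Dec (ys (A x)) = u
      rw [hysA, hB u hu]
    -- after B
    have hBx : ∀ k, (Bs (A x) k).1 = (x k).1 + ((2 : ℝ) ^ k * w k x) • inc c (Code u) +
        (w k x • ((u k).1 - (x k).1) + inc 0 (cd w k x •
          (Code u - proj 0 ((1 - w k x) • (x k).1 + w k x • (u k).1)))) := by
      intro k
      rw [hBs, Pi.add_apply]
      change (A x k).1 + (w k (A x) • ((p (A x) k).1 - (H (p (A x)) k).1) + inc 0 (cd w k (A x) •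
        (ys (A x) - proj 0 ((1 - w k (A x)) • (H (p (A x)) k).1 + w k (A x) • (p (A x) k).1)))) = _
      have h5 : cd w k (A x) = cd w k x := by
        unfold cd
        simp only [hwA]
      rw [hpA, hysA, hwA, hxe, h5, hAx]
      rfl
    -- the code
    have hb : ∀ k, cd w k x = 1 → proj 0 (Bs (A x) k).1 = Code u := by
      intro k hk
      rw [hBx, hk, map_add, map_add, map_add, hpi, map_smul, map_smul, hpi' c 0 _ (by omega),
        smul_zero, add_zero, one_smul, map_add, map_smul, map_smul, map_sub]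
      module
    have hch : ch (Bs (A x)) = Code u := by
      have hinv : ∀ k, w k (Bs (A x)) = w k x := fun k => by rw [hwB, hwA]
      have e1 : ch (Bs (A x)) = et (w k0 (Bs (A x))) • proj 0 (Bs (A x) k0).1 +
          (1 - et (w k0 (Bs (A x)))) • proj 0 (Bs (A x) (k0 + 1)).1 :=
        sel_first _ _ (by rw [hinv]; exact h1) (fun j hj => by rw [hinv]; exact h2 j hj)
      rw [e1, hinv]
      have g1 : et (w k0 x) • proj 0 (Bs (A x) k0).1 = et (w k0 x) • Code u := by
        by_cases he : et (w k0 x) = 0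
        · rw [he, zero_smul, zero_smul]
        · rw [hb k0]
          have h6 := et_pos he
          have h7 : pv (fun i => w i x) k0 = 0 := by
            rcases k0 with _ | k
            · rfl
            · exact h2 k (Nat.lt_succ_self k)
          unfold cd
          rw [h7, min_eq_left (by linarith), min_eq_left (by norm_num), one_mul]
      have g2 : (1 - et (w k0 x)) • proj 0 (Bs (A x) (k0 + 1)).1 =
          (1 - et (w k0 x)) • Code u := by
        by_cases he : 1 - et (w k0 x) = 0
        · rw [he, zero_smul, zero_smul]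
        · rw [hb (k0 + 1)]
          have h6 := et_lt he
          have h7 : pv (fun i => w i x) (k0 + 1) = w k0 x := rfl
          unfold cd
          rw [h7, h3 (k0 + 1) (Nat.lt_succ_self k0), min_eq_left (by norm_num),
            min_eq_left (by linarith), one_mul]
      rw [g1, g2, ← add_smul, add_sub_cancel, one_smul]
    filter_upwards [eventually_ge_atTop (k0 + 2)] with k hk
    change (Cs (Bs (A x)) k).1 = (u k).1
    rw [hCs, hch, Pi.add_apply]
    have h8 : (dir w (inc c) (Bs (A x)) (-Code u) k).1 =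
        -(((2 : ℝ) ^ k * w k x) • inc c (Code u)) := by
      change ((2 : ℝ) ^ k * w k (Bs (A x))) • inc c (-Code u) = _
      rw [hwB, hwA, map_neg, smul_neg]
    have h9 : cd w k x = 0 := by
      obtain ⟨j, rfl⟩ : ∃ j, k = j + 1 := ⟨k - 1, by omega⟩
      have h10 : pv (fun i => w i x) (j + 1) = w j x := rfl
      unfold cd
      rw [h10, h3 j (by omega), mul_one, sub_self, min_eq_right zero_le_one, mul_zero]
    change (Bs (A x) k).1 + (dir w (inc c) (Bs (A x)) (-Code u) k).1 = (u k).1
    rw [h8, hBx, h9, h3 k (by omega), zero_smul, map_zero, one_smul]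
    abel
  · intro x k c' hc'
    change proj c' (Cs (Bs (A x)) k).1 = proj c' (x k).1
    have hd : ∀ (x : ℕ → X × V) y, proj c' (dir w (inc c) x y k).1 = 0 := by
      intro x y
      change proj c' (((2 : ℝ) ^ k * w k x) • inc c y) = 0
      rw [map_smul, hpi' c c' y (by omega), smul_zero]
    have e1 : ∀ x y : ℕ → X × V, proj c' ((x + y) k).1 = proj c' (x k).1 + proj c' (y k).1 := by
      intro x y
      rw [← map_add]
      rfl
    rw [hCs, e1, hd, add_zero, hBs, e1, hδp _ k c' hc'.le, add_zero, hA, e1, hd, add_zero]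

end Half

end Pool.Agent.CPY
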