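import Mathlib

/-!
# Bounded functions with the topology of all ultrafilter limits
-/

set_option autoImplicit false

namespace Pool.Agent.CPY

open Set Filter Topology

/-- Bounded real functions on `S`. -/
structure XX (S : Type) where
  /-- the function -/
  toFun : S → ℝ
  bdd : ∃ C, ∀ s, |toFun s| ≤ C

namespace XX

variable {S S' : Type}

instance : CoeFun (XX S) (fun _ => S → ℝ) := ⟨XX.toFun⟩

@[ext] theorem ext {f g : XX S} (h : ∀ s, f.toFun s = g.toFun s) : f = g := by
  cases f
  cases g
  congr
  exact funext h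

theorem toFun_injective : Function.Injective (XX.toFun (S := S)) := fun _ _ h =>
  ext fun s => congrFun h s

instance : Zero (XX S) := ⟨⟨0, 0, fun s => by simp⟩⟩

instance : Add (XX S) := ⟨fun f g => ⟨fun s => f s + g s, by
  obtain ⟨C, hC⟩ := f.bdd
  obtain ⟨D, hD⟩ := g.bdd
  exact ⟨C + D, fun s => (abs_add_le _ _).trans (add_le_add (hC s) (hD s))⟩⟩⟩

instance : Neg (XX S) := ⟨fun f => ⟨fun s => -f s, by
  obtain ⟨C, hC⟩ := f.bdd
  exact ⟨C, fun s => by rw [abs_neg]; exact hC s⟩⟩⟩

instance : Sub (XX S) := ⟨fun f g => ⟨fun s => f s - g s, by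
  obtain ⟨C, hC⟩ := f.bdd
  obtain ⟨D, hD⟩ := g.bdd
  exact ⟨C + D, fun s => (abs_sub _ _).trans (add_le_add (hC s) (hD s))⟩⟩⟩

instance : SMul ℝ (XX S) := ⟨fun c f => ⟨fun s => c * f s, by
  obtain ⟨C, hC⟩ := f.bdd
  exact ⟨|c| * C, fun s => by
    rw [abs_mul]
    exact mul_le_mul_of_nonneg_left (hC s) (abs_nonneg c)⟩⟩⟩

instance : SMul ℕ (XX S) := ⟨fun n f => ((n : ℝ) • f : XX S)⟩

instance : SMul ℤ (XX S) := ⟨fun n f => ((n : ℝ) • f : XX S)⟩

@[simp] theorem zero_apply (s : S) : (0 : XX S) s = 0 := rfl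

@[simp] theorem add_apply (f g : XX S) (s : S) : (f + g) s = f s + g s := rfl

@[simp] theorem neg_apply (f : XX S) (s : S) : (-f) s = -f s := rfl

@[simp] theorem sub_apply (f g : XX S) (s : S) : (f - g) s = f s - g s := rfl

@[simp] theorem smul_apply (c : ℝ) (f : XX S) (s : S) : (c • f) s = c * f s := rfl

instance : AddCommGroup (XX S) :=
  toFun_injective.addCommGroup XX.toFun rfl (fun _ _ => rfl) (fun _ => rfl) (fun _ _ => rfl)
    (fun f n => by
      funext s
      change ((n : ℝ) * f s) = n • f s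
      rw [nsmul_eq_mul])
    (fun f n => by
      funext s
      change ((n : ℝ) * f s) = n • f s
      rw [zsmul_eq_mul])

/-- the underlying function as a group homomorphism -/
def toFunHom (S : Type) : XX S →+ (S → ℝ) where
  toFun := XX.toFun
  map_zero' := rfl
  map_add' _ _ := rfl

instance : Module ℝ (XX S) := toFun_injective.module ℝ (toFunHom S) (fun _ _ => rfl)

theorem exists_lim (f : XX S) (q : Ultrafilter S) : ∃ c : ℝ, Tendsto f.toFun q (𝓝 c) := by
  obtain ⟨C, hC⟩ := f.bdd
  have h1 : (q.map f.toFun : Filter ℝ) ≤ 𝓟 (Icc (-C) C) := by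
    rw [le_principal_iff, Ultrafilter.coe_map, Filter.mem_map]
    exact Filter.univ_mem' fun s => abs_le.1 (hC s)
  obtain ⟨c, -, hc⟩ := isCompact_Icc.ultrafilter_le_nhds (q.map f.toFun) h1
  exact ⟨c, hc⟩

/-- The value at an ultrafilter. -/
noncomputable def evf (q : Ultrafilter S) (f : XX S) : ℝ := (exists_lim f q).choose

theorem tendsto_evf (f : XX S) (q : Ultrafilter S) : Tendsto f.toFun q (𝓝 (evf q f)) :=
  (exists_lim f q).choose_spec

theorem evf_eq {f : XX S} {q : Ultrafilter S} {c : ℝ} (h : Tendsto f.toFun q (𝓝 c)) :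
    evf q f = c := tendsto_nhds_unique (tendsto_evf f q) h

end XX

open XX

variable {S S' : Type}

/-- The value at an ultrafilter, as a linear map. -/
noncomputable def ev (q : Ultrafilter S) : XX S →ₗ[ℝ] ℝ where
  toFun := evf q
  map_add' f g := evf_eq ((tendsto_evf f q).add (tendsto_evf g q))
  map_smul' c f := evf_eq ((tendsto_evf f q).const_mul c)

theorem tendsto_ev (f : XX S) (q : Ultrafilter S) : Tendsto f.toFun q (𝓝 (ev q f)) :=
  tendsto_evf f q

theorem ev_eq {f : XX S} {q : Ultrafilter S} {c : ℝ} (h : Tendsto f.toFun q (𝓝 c)) :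
    ev q f = c := evf_eq h

theorem ev_pure (f : XX S) (s : S) : ev (pure s) f = f s := by
  apply ev_eq
  rw [Ultrafilter.coe_pure]
  exact tendsto_pure_nhds f.toFun s

theorem ev_congr {f g : XX S} {q : Ultrafilter S} {A : Set S} (hA : A ∈ q)
    (h : ∀ s ∈ A, f s = g s) : ev q f = ev q g :=
  ev_eq ((tendsto_ev g q).congr' (Filter.mem_of_superset hA fun s hs => (h s hs).symm))

theorem abs_ev_le {f : XX S} {q : Ultrafilter S} {A : Set S} (hA : A ∈ q) {C : ℝ}
    (h : ∀ s ∈ A, |f s| ≤ C) : |ev q f| ≤ C :=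
  le_of_tendsto (tendsto_ev f q).abs (Filter.mem_of_superset hA h)

/-- all values, as a linear map -/
noncomputable def evL (S : Type) : XX S →ₗ[ℝ] (Ultrafilter S → ℝ) := LinearMap.pi ev

noncomputable instance : TopologicalSpace (XX S) := TopologicalSpace.induced (evL S) inferInstance

theorem isInducing_evL : IsInducing (evL S) := ⟨rfl⟩

theorem isInducing_ev : IsInducing (fun (f : XX S) (q : Ultrafilter S) => ev q f) :=
  isInducing_evL

instance : IsTopologicalAddGroup (XX S) := topologicalAddGroup_induced (evL S)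

instance : ContinuousSMul ℝ (XX S) := continuousSMul_induced (evL S)

theorem continuous_ev (q : Ultrafilter S) : Continuous (ev q) :=
  (continuous_apply q).comp isInducing_evL.continuous

theorem continuous_apply_XX (s : S) : Continuous fun f : XX S => f s :=
  (continuous_ev (pure s : Ultrafilter S)).congr fun f => ev_pure f s

theorem continuous_of_ev {Z : Type*} [TopologicalSpace Z] {Φ : Z → XX S}
    (h : ∀ q, Continuous fun z => ev q (Φ z)) : Continuous Φ :=
  isInducing_evL.continuous_iff.2 (continuous_pi h)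

/-- Finitely many ultrafilters are separated by sets. -/
theorem exists_sep (J : Finset (Ultrafilter S)) (q : Ultrafilter S) (hq : q ∉ J) :
    ∃ A ∈ q, ∀ p ∈ J, A ∉ p := by
  classical
  induction J using Finset.induction_on with
  | empty => exact ⟨univ, Filter.univ_mem, by simp⟩
  | insert p J _ ih =>
    rw [Finset.mem_insert, not_or] at hq
    obtain ⟨A, hA, hJ⟩ := ih hq.2
    obtain ⟨B, hB, hBp⟩ : ∃ B ∈ q, B ∉ p := by
      by_contra hcon
      push Not at hcon
      have h1 : (p : Filter S) ≤ q := fun B hB => hcon B hB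
      exact hq.1 (Ultrafilter.coe_le_coe.1 h1).symm
    refine ⟨A ∩ B, Filter.inter_mem hA hB, fun p' hp' => ?_⟩
    rw [Finset.mem_insert] at hp'
    rcases hp' with rfl | hp'
    · exact fun h => hBp (Filter.mem_of_superset h inter_subset_right)
    · exact fun h => hJ p' hp' (Filter.mem_of_superset h inter_subset_left)

/-- The characteristic function of a set. -/
noncomputable def chi (A : Set S) : XX S := ⟨A.indicator 1, 1, fun s => by
  classical
  by_cases h : s ∈ A
  · rw [Set.indicator_of_mem h]
    simp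
  · rw [Set.indicator_of_notMem h]
    simp⟩

theorem ev_chi_of_mem {A : Set S} {q : Ultrafilter S} (h : A ∈ q) : ev q (chi A) = 1 := by
  apply ev_eq
  refine tendsto_const_nhds.congr' (Filter.mem_of_superset h fun s hs => ?_)
  exact (Set.indicator_of_mem hs (1 : S → ℝ)).symm

theorem ev_chi_of_notMem {A : Set S} {q : Ultrafilter S} (h : A ∉ q) : ev q (chi A) = 0 := by
  apply ev_eq
  refine tendsto_const_nhds.congr' (Filter.mem_of_superset
    (Ultrafilter.compl_mem_iff_notMem.2 h) fun s hs => ?_)
  exact (Set.indicator_of_notMem hs (1 : S → ℝ)).symm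

theorem exists_ev_eq (J : Finset (Ultrafilter S)) (v : Ultrafilter S → ℝ) :
    ∃ f : XX S, ∀ q ∈ J, ev q f = v q := by
  classical
  have h1 : ∀ q : Ultrafilter S, ∃ A ∈ q, ∀ p ∈ J.erase q, A ∉ p := fun q =>
    exists_sep (J.erase q) q (Finset.notMem_erase q J)
  choose A hA hJ using h1
  refine ⟨∑ q ∈ J, v q • chi (A q), fun q hq => ?_⟩
  rw [map_sum, Finset.sum_eq_single q]
  · rw [map_smul, ev_chi_of_mem (hA q), smul_eq_mul, mul_one]
  · intro p hp hpq
    rw [map_smul, ev_chi_of_notMem (hJ p q (Finset.mem_erase.2 ⟨hpq.symm, hq⟩)), smul_zero]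
  · exact fun h => absurd hq h

theorem denseRange_ev : DenseRange (fun (f : XX S) (q : Ultrafilter S) => ev q f) := by
  classical
  intro v
  rw [mem_closure_iff_nhds]
  intro N hN
  rw [nhds_pi, Filter.mem_pi] at hN
  obtain ⟨I, hI, t, ht, hs⟩ := hN
  obtain ⟨f, hf⟩ := exists_ev_eq hI.toFinset v
  refine ⟨_, hs fun q hq => ?_, f, rfl⟩
  change ev q f ∈ t q
  rw [hf q (hI.mem_toFinset.2 hq)]
  exact mem_of_mem_nhds (ht q)

/-- Restriction along a map of the index sets. -/
noncomputable def pull (i : S' → S) : XX S →L[ℝ] XX S' where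
  toFun f := ⟨fun s => f (i s), by
    obtain ⟨C, hC⟩ := f.bdd
    exact ⟨C, fun s => hC (i s)⟩⟩
  map_add' _ _ := rfl
  map_smul' _ _ := rfl
  cont := continuous_of_ev fun q => by
    have h : ∀ f : XX S, ev q (⟨fun s => f (i s), by
        obtain ⟨C, hC⟩ := f.bdd
        exact ⟨C, fun s => hC (i s)⟩⟩ : XX S') = ev (q.map i) f := fun f =>
      ev_eq ((tendsto_ev f (q.map i)).comp tendsto_map)
    exact (continuous_ev (q.map i)).congr fun f => (h f).symm

@[simp] theorem pull_apply (i : S' → S) (f : XX S) (s : S') : pull i f s = f (i s) := rfl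

theorem ev_pull (i : S' → S) (f : XX S) (q : Ultrafilter S') :
    ev q (pull i f) = ev (q.map i) f :=
  ev_eq ((tendsto_ev f (q.map i)).comp tendsto_map)

open Classical in
/-- the extension by zero, as a function -/
noncomputable def pushFun (i : S' → S) (f : S' → ℝ) (s : S) : ℝ :=
  if h : ∃ s', i s' = s then f h.choose else 0

theorem pushFun_apply {i : S' → S} (hi : Function.Injective i) (f : S' → ℝ) (s : S') :
    pushFun i f (i s) = f s := by
  classical
  have h : ∃ s', i s' = i s := ⟨s, rfl⟩
  unfold pushFun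
  rw [dif_pos h, hi h.choose_spec]

theorem pushFun_of_notMem {i : S' → S} (f : S' → ℝ) {s : S} (h : s ∉ Set.range i) :
    pushFun i f s = 0 := by
  classical
  unfold pushFun
  rw [dif_neg]
  exact h

theorem pushFun_cases {i : S' → S} (hi : Function.Injective i) (f : S' → ℝ) (s : S)
    {p : ℝ → Prop} (h1 : ∀ s', p (f s')) (h2 : p 0) : p (pushFun i f s) := by
  by_cases h : s ∈ Set.range i
  · obtain ⟨s', rfl⟩ := h
    rw [pushFun_apply hi]
    exact h1 s'
  · rw [pushFun_of_notMem f h]
    exact h2

/-- the extension by zero -/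
noncomputable def pushX (i : S' → S) (hi : Function.Injective i) (f : XX S') : XX S :=
  ⟨pushFun i f, by
    obtain ⟨C, hC⟩ := f.bdd
    refine ⟨max C 0, fun s => ?_⟩
    exact pushFun_cases hi f s (p := fun x => |x| ≤ max C 0)
      (fun s' => (hC s').trans (le_max_left _ _)) (by simp)⟩

theorem pushX_apply (i : S' → S) (hi : Function.Injective i) (f : XX S') (s : S') :
    pushX i hi f (i s) = f s := pushFun_apply hi f s

theorem pushX_apply_of_notMem (i : S' → S) (hi : Function.Injective i) (f : XX S') {s : S}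
    (h : s ∉ Set.range i) : pushX i hi f s = 0 := pushFun_of_notMem _ h

theorem pushX_ext {i : S' → S} {f g : XX S} (h1 : ∀ s, f (i s) = g (i s))
    (h2 : ∀ s, s ∉ Set.range i → f s = g s) : f = g := by
  ext s
  by_cases h : s ∈ Set.range i
  · obtain ⟨s', rfl⟩ := h
    exact h1 s'
  · exact h2 s h

theorem continuous_pushX (i : S' → S) (hi : Function.Injective i) : Continuous (pushX i hi) := by
  refine continuous_of_ev fun q => ?_
  by_cases hq : Set.range i ∈ q
  · have h1 : ∀ f : XX S', ev q (pushX i hi f) = ev (Ultrafilter.comap q hi hq) f := by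
      intro f
      have h2 : pull i (pushX i hi f) = f := XX.ext fun s => pushX_apply i hi f s
      have h3 := ev_pull i (pushX i hi f) (Ultrafilter.comap q hi hq)
      rw [h2] at h3
      rw [h3]
      congr 2
      apply Ultrafilter.coe_injective
      rw [Ultrafilter.coe_map, Ultrafilter.coe_comap]
      exact (Filter.map_comap_of_mem hq).symm
    exact (continuous_ev _).congr fun f => (h1 f).symm
  · have h1 : ∀ f : XX S', ev q (pushX i hi f) = 0 := by
      intro f
      rw [← map_zero (ev q)]
      exact ev_congr (Ultrafilter.compl_mem_iff_notMem.2 hq) fun s hs =>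
        pushX_apply_of_notMem i hi f hs
    exact continuous_const.congr fun f => (h1 f).symm

/-- Extension by zero along an injective map of the index sets. -/
noncomputable def push (i : S' → S) (hi : Function.Injective i) : XX S' →L[ℝ] XX S where
  toFun := pushX i hi
  map_add' f g := pushX_ext (i := i) (fun s => by
      rw [add_apply, pushX_apply, pushX_apply, pushX_apply, add_apply]) fun s hs => by
      rw [add_apply, pushX_apply_of_notMem _ _ _ hs, pushX_apply_of_notMem _ _ _ hs,
        pushX_apply_of_notMem _ _ _ hs, add_zero]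
  map_smul' c f := pushX_ext (i := i) (fun s => by
      rw [RingHom.id_apply, smul_apply, pushX_apply, pushX_apply, smul_apply]) fun s hs => by
      rw [RingHom.id_apply, smul_apply, pushX_apply_of_notMem _ _ _ hs,
        pushX_apply_of_notMem _ _ _ hs, mul_zero]
  cont := continuous_pushX i hi

@[simp] theorem push_apply (i : S' → S) (hi : Function.Injective i) (f : XX S') (s : S') :
    push i hi f (i s) = f s := pushX_apply i hi f s

theorem push_apply_of_notMem (i : S' → S) (hi : Function.Injective i) (f : XX S') {s : S}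
    (h : s ∉ Set.range i) : push i hi f s = 0 := pushX_apply_of_notMem i hi f h

/-- Truncation. -/
noncomputable def trunc (ρ : ℝ) (f : XX S) : XX S := ⟨fun s => max (-ρ) (min ρ (f s)), |ρ|, fun s => by
  rw [abs_le]
  constructor
  · exact (neg_le_neg (le_abs_self ρ)).trans (le_max_left _ _)
  · exact max_le (neg_le_abs ρ) ((min_le_left _ _).trans (le_abs_self ρ))⟩

@[simp] theorem trunc_apply (ρ : ℝ) (f : XX S) (s : S) :
    trunc ρ f s = max (-ρ) (min ρ (f s)) := rfl

theorem continuous_trunc (ρ : ℝ) : Continuous (trunc ρ : XX S → XX S) := by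
  refine continuous_of_ev fun q => ?_
  have h1 : ∀ f : XX S, ev q (trunc ρ f) = max (-ρ) (min ρ (ev q f)) := fun f =>
    ev_eq (tendsto_const_nhds.max (tendsto_const_nhds.min (tendsto_ev f q)))
  have h2 : Continuous fun f : XX S => max (-ρ) (min ρ (ev q f)) :=
    continuous_const.max (continuous_const.min (continuous_ev q))
  exact h2.congr fun f => (h1 f).symm

/-- The ball. -/
def ball (r : ℝ) : Set (XX S) := {f | ∀ s, |f s| ≤ r}

theorem mem_ball {r : ℝ} {f : XX S} : f ∈ ball r ↔ ∀ s, |f s| ≤ r := Iff.rfl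

theorem ball_mono {r r' : ℝ} (h : r ≤ r') : (ball r : Set (XX S)) ⊆ ball r' :=
  fun _ hf s => (hf s).trans h

theorem exists_mem_ball (f : XX S) : ∃ n : ℕ, f ∈ (ball n : Set (XX S)) := by
  obtain ⟨C, hC⟩ := f.bdd
  obtain ⟨n, hn⟩ := exists_nat_ge C
  exact ⟨n, fun s => (hC s).trans hn⟩

theorem trunc_mem_ball {ρ : ℝ} (hρ : 0 ≤ ρ) (f : XX S) : trunc ρ f ∈ (ball ρ : Set (XX S)) := by
  intro s
  rw [trunc_apply, abs_le]
  exact ⟨le_max_left _ _, max_le (by linarith) (min_le_left _ _)⟩

theorem trunc_eq {ρ : ℝ} {f : XX S} (hf : f ∈ (ball ρ : Set (XX S))) : trunc ρ f = f := by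
  ext s
  have := abs_le.1 (hf s)
  rw [trunc_apply, min_eq_right this.2, max_eq_right this.1]

/-- Uniformly convergent sums. -/
theorem continuous_of_sum {Z : Type*} [TopologicalSpace Z] (f : ℕ → Z → XX S)
    (hf : ∀ i, Continuous (f i)) (M : ℕ → ℝ) (hM : Summable M) (hb : ∀ i z s, |f i z s| ≤ M i)
    (g : Z → XX S) (hg : ∀ z s, g z s = ∑' i, f i z s) : Continuous g := by
  refine continuous_of_ev fun q => ?_
  have hb' : ∀ i z, ‖ev q (f i z)‖ ≤ M i := fun i z =>
    abs_ev_le (A := univ) Filter.univ_mem fun s _ => hb i z s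
  have h1 : ∀ z, ev q (g z) = ∑' i, ev q (f i z) := by
    intro z
    apply ev_eq
    have h2 : (g z).toFun = fun s => ∑' i, f i z s := funext fun s => hg z s
    rw [h2]
    exact tendsto_tsum_of_dominated_convergence hM (fun i => tendsto_ev (f i z) q)
      (Filter.Eventually.of_forall fun s i => hb i z s)
  have h2 : Continuous fun z => ∑' i, ev q (f i z) :=
    continuous_tsum (fun i => (continuous_ev q).comp (hf i)) hM hb'
  exact h2.congr fun z => (h1 z).symm

theorem exists_zero_fun [Countable S] (r : ℝ) :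
    ∃ ρ : XX S → ℝ, Continuous ρ ∧ ∀ f, ρ f = 0 ↔ f ∈ ball r := by
  have : Encodable S := Encodable.ofCountable S
  have hterm : ∀ (f : XX S) (s : S),
      ‖(1 / 2 : ℝ) ^ Encodable.encode s * min 1 (max 0 (|f s| - r))‖ ≤
        (1 / 2 : ℝ) ^ Encodable.encode s := by
    intro f s
    have h1 : 0 ≤ min 1 (max 0 (|f s| - r)) := le_min zero_le_one (le_max_left _ _)
    rw [Real.norm_eq_abs, abs_of_nonneg (mul_nonneg (by positivity) h1)]
    exact mul_le_of_le_one_right (by positivity) (min_le_left _ _)
  have hsum : Summable fun s : S => (1 / 2 : ℝ) ^ Encodable.encode s :=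
    summable_geometric_two_encode
  refine ⟨fun f => ∑' s, (1 / 2 : ℝ) ^ Encodable.encode s * min 1 (max 0 (|f s| - r)), ?_, ?_⟩
  · refine continuous_tsum (fun s => ?_) hsum fun s f => hterm f s
    exact continuous_const.mul (continuous_const.min (continuous_const.max
      ((continuous_apply_XX s).abs.sub continuous_const)))
  · intro f
    have hs : Summable fun s => (1 / 2 : ℝ) ^ Encodable.encode s * min 1 (max 0 (|f s| - r)) :=
      Summable.of_norm_bounded hsum (hterm f)
    have h0 : ∀ s, 0 ≤ (1 / 2 : ℝ) ^ Encodable.encode s * min 1 (max 0 (|f s| - r)) := fun s =>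
      mul_nonneg (by positivity) (le_min zero_le_one (le_max_left _ _))
    constructor
    · intro h s
      have h1 := hs.le_tsum s fun j _ => h0 j
      change ∑' s, (1 / 2 : ℝ) ^ Encodable.encode s * min 1 (max 0 (|f s| - r)) = 0 at h
      rw [h] at h1
      have h2 := le_antisymm h1 (h0 s)
      rcases mul_eq_zero.1 h2 with h3 | h3
      · exact absurd h3 (by positivity)
      · by_contra h4
        push Not at h4
        have h5 : 0 < min 1 (max 0 (|f s| - r)) := lt_min one_pos (lt_max_of_lt_right (by linarith))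
        exact h5.ne' h3
    · intro h
      have h1 : ∀ s, (1 / 2 : ℝ) ^ Encodable.encode s * min 1 (max 0 (|f s| - r)) = 0 := by
        intro s
        rw [max_eq_left (by linarith [h s]), min_eq_right zero_le_one, mul_zero]
      change ∑' s, (1 / 2 : ℝ) ^ Encodable.encode s * min 1 (max 0 (|f s| - r)) = 0
      rw [tsum_congr h1, tsum_zero]

/-- Renaming of the index set. -/
noncomputable def reindex (e : S ≃ S') : XX S ≃ₜ XX S' where
  toFun := pull e.symm
  invFun := pull e
  left_inv f := XX.ext fun s => by simp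
  right_inv f := XX.ext fun s => by simp
  continuous_toFun := (pull e.symm).continuous
  continuous_invFun := (pull e).continuous

@[simp] theorem reindex_apply (e : S ≃ S') (f : XX S) (s : S') :
    reindex e f s = f (e.symm s) := rfl

@[simp] theorem reindex_symm_apply (e : S ≃ S') (f : XX S') (s : S) :
    (reindex e).symm f s = f (e s) := rfl

theorem class_injective (c : ℕ) : Function.Injective fun p : ℕ => ((c, p) : ℕ × ℕ) :=
  fun _ _ h => (Prod.mk.inj h).2

/-- The coordinates of class `c`. -/
noncomputable def proj (c : ℕ) : XX (ℕ × ℕ) →L[ℝ] XX ℕ := pull fun p => (c, p)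

/-- The inclusion of class `c`. -/
noncomputable def inc (c : ℕ) : XX ℕ →L[ℝ] XX (ℕ × ℕ) := push (fun p => (c, p)) (class_injective c)

@[simp] theorem proj_apply (c : ℕ) (f : XX (ℕ × ℕ)) (p : ℕ) : proj c f p = f (c, p) := rfl

theorem proj_inc (c : ℕ) (y : XX ℕ) : proj c (inc c y) = y :=
  XX.ext fun p => push_apply (fun p => (c, p)) (class_injective c) y p

theorem proj_inc_of_ne (c c' : ℕ) (y : XX ℕ) (h : c ≠ c') : proj c' (inc c y) = 0 :=
  XX.ext fun p => push_apply_of_notMem (fun p => (c, p)) (class_injective c) y (by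
    rintro ⟨p', hp'⟩
    exact h (Prod.mk.inj hp').1)

theorem proj_mem_ball {r : ℝ} {f : XX (ℕ × ℕ)} (h : f ∈ (ball r : Set (XX (ℕ × ℕ)))) (c : ℕ) :
    proj c f ∈ (ball r : Set (XX ℕ)) := fun p => h (c, p)

end Pool.Agent.CPY
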