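import Mathlib
import Pool.Agent.CPY.Half
import Pool.Agent.CPY.Build
import Pool.Agent.CPY.Cutoff
import Pool.Agent.CPY.Model

/-!
# The homeomorphism between the bounded elements
-/

set_option autoImplicit false
set_option linter.unusedSectionVars false

namespace Pool.Agent.CPY

open Set Filter Topology

section

variable {V : Type*} [TopologicalSpace V]

/-- The bounded sequences of size `r`. -/
def seqBall (V : Type*) (r : ℝ) : Set (ℕ → XX (ℕ × ℕ) × V) := {u | ∀ k, (u k).1 ∈ ball r}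

/-- The bounded sequences are a zero set. -/
theorem exists_zero_seq (r : ℝ) :
    ∃ G : (ℕ → XX (ℕ × ℕ) × V) → ℝ, Continuous G ∧ ∀ u, G u = 0 ↔ u ∈ seqBall V r := by
  obtain ⟨ρ, hρ, hρ0⟩ := exists_zero_fun (S := ℕ × ℕ) r
  have hterm : ∀ (k : ℕ) (u : ℕ → XX (ℕ × ℕ) × V),
      ‖(1 / 2 : ℝ) ^ k * min 1 |ρ (u k).1|‖ ≤ (1 / 2 : ℝ) ^ k := by
    intro k u
    have h1 : 0 ≤ min 1 |ρ (u k).1| := le_min zero_le_one (abs_nonneg _)
    rw [Real.norm_eq_abs, abs_of_nonneg (mul_nonneg (by positivity) h1)]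
    exact mul_le_of_le_one_right (by positivity) (min_le_left _ _)
  refine ⟨fun u => ∑' k, (1 / 2 : ℝ) ^ k * min 1 |ρ (u k).1|, ?_, ?_⟩
  · refine continuous_tsum (fun k => ?_) summable_geometric_two hterm
    exact continuous_const.mul (continuous_const.min
      (hρ.comp (continuous_fst.comp (continuous_apply k))).abs)
  · intro u
    have hs : Summable fun k => (1 / 2 : ℝ) ^ k * min 1 |ρ (u k).1| :=
      Summable.of_norm_bounded summable_geometric_two fun k => hterm k u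
    have h0 : ∀ k, 0 ≤ (1 / 2 : ℝ) ^ k * min 1 |ρ (u k).1| := fun k =>
      mul_nonneg (by positivity) (le_min zero_le_one (abs_nonneg _))
    constructor
    · intro h k
      have h1 := hs.le_tsum k fun j _ => h0 j
      change ∑' k, (1 / 2 : ℝ) ^ k * min 1 |ρ (u k).1| = 0 at h
      rw [h] at h1
      have h2 := le_antisymm h1 (h0 k)
      rcases mul_eq_zero.1 h2 with h3 | h3
      · exact absurd h3 (by positivity)
      · rw [← hρ0]
        by_contra h4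
        exact (lt_min one_pos (abs_pos.2 h4)).ne' h3
    · intro h
      have h1 : ∀ k, (1 / 2 : ℝ) ^ k * min 1 |ρ (u k).1| = 0 := by
        intro k
        rw [(hρ0 _).2 (h k), abs_zero, min_eq_right zero_le_one, mul_zero]
      change ∑' k, (1 / 2 : ℝ) ^ k * min 1 |ρ (u k).1| = 0
      rw [tsum_congr h1, tsum_zero]

/-- The functions with zero sets the bounded sequences of size `n`; nothing for `n = 0`. -/
theorem exists_G (V : Type*) [TopologicalSpace V] : ∃ G : ℕ → (ℕ → XX (ℕ × ℕ) × V) → ℝ,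
    (∀ n, Continuous (G n)) ∧ (∀ u, G 0 u ≠ 0) ∧
      ∀ (n : ℕ) u, G (n + 1) u = 0 ↔ u ∈ seqBall V ((n : ℝ) + 1) := by
  have h1 : ∀ n : ℕ, ∃ G : (ℕ → XX (ℕ × ℕ) × V) → ℝ, Continuous G ∧
      ∀ u, G u = 0 ↔ u ∈ seqBall V ((n : ℝ) + 1) := fun n => exists_zero_seq _
  choose G hG hG0 using h1
  refine ⟨fun n => Nat.casesOn n (fun _ => 1) G, ?_, ?_, ?_⟩
  · intro n
    cases n
    · exact continuous_const
    · exact hG _
  · intro u
    exact one_ne_zero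
  · exact fun n u => hG0 n u

end

/-- The code of bounded sequences. -/
def HasCode (V : Type) [TopologicalSpace V] : Prop := ∀ r : ℝ,
  ∃ (Code : (ℕ → XX (ℕ × ℕ) × V) → XX ℕ) (Dec : XX ℕ → (ℕ → XX (ℕ × ℕ) × V)),
    Continuous Code ∧ Continuous Dec ∧ ∀ u, (∀ k, (u k).1 ∈ ball r) → Dec (Code u) = u

/-- The maps `Y_j`. -/
def HasLine : Prop := ∀ r : ℝ, 0 ≤ r → ∃ Yj : ℕ → (ℕ → XX ℕ) → XX ℕ, (∀ j, Continuous (Yj j)) ∧
    (∀ j a, (∀ i, a i ∈ ball r) → Yj j a = 0) ∧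
    (∀ j a a' y, (∀ i, j ≤ i → a' i = a i + (2 : ℝ) ^ i • y) → Yj j a' = Yj j a + y)

section

variable {V V' : Type} [TopologicalSpace V] [AddCommGroup V] [Module ℝ V]
  [IsTopologicalAddGroup V] [ContinuousSMul ℝ V] [TopologicalSpace V'] [AddCommGroup V']
  [Module ℝ V'] [IsTopologicalAddGroup V'] [ContinuousSMul ℝ V']

theorem halfStep (hl : HasLine) (hc : HasCode V)
    (hcut : ∀ (F : (ℕ → XX (ℕ × ℕ) × V') → ℝ), Continuous F → ∀ n : ℕ,
      ∃ w : ℕ → (ℕ → XX (ℕ × ℕ) × V') → ℝ, IsCutoff w {x | F x = 0} n)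
    (G : ℕ → (ℕ → XX (ℕ × ℕ) × V) → ℝ)
    (hG1 : ∀ (n : ℕ) u, G (n + 1) u = 0 ↔ u ∈ seqBall V ((n : ℝ) + 1)) :
    HalfStep (V' := V') (fun c f => proj c f) G := by
  intro c n hc1 H hH F hF
  obtain ⟨w, hw⟩ := hcut F hF n
  obtain ⟨Code, Dec, hCode, hDec, hCD⟩ := hc ((n : ℝ) + 1)
  obtain ⟨Yj, hY1, hY2, hY3⟩ := hl ((n : ℝ) + 1) (by positivity)
  obtain ⟨Ψ, h1, h2, h3, h4⟩ := half_step (X := XX (ℕ × ℕ)) (Y := XX ℕ) (V := V') (V' := V)
    proj inc proj_inc proj_inc_of_ne (ball ((n : ℝ) + 1)) Yj hY1 hY2 hY3 c hc1 H hH Code hCode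
    Dec hDec (seqBall V ((n : ℝ) + 1)) (fun u hu => hCD u hu)
    (fun u hu k => proj_mem_ball (hu k) c) hw
  exact ⟨Ψ, w, hw, h1, h2, fun u hu hFu => h3 u ((hG1 n u).1 hu) hFu, h4⟩

theorem bdd_iff (G : ℕ → (ℕ → XX (ℕ × ℕ) × V) → ℝ) (hG0 : ∀ u, G 0 u ≠ 0)
    (hG1 : ∀ (n : ℕ) u, G (n + 1) u = 0 ↔ u ∈ seqBall V ((n : ℝ) + 1))
    (u : ℕ → XX (ℕ × ℕ) × V) : (∃ r, ∀ k, (u k).1 ∈ ball r) ↔ ∃ n, G n u = 0 := by
  constructor
  · rintro ⟨r, hr⟩
    obtain ⟨n, hn⟩ := exists_nat_ge r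
    exact ⟨n + 1, (hG1 n u).2 fun k => ball_mono (hn.trans (by linarith)) (hr k)⟩
  · rintro ⟨n, hn⟩
    cases n with
    | zero => exact absurd hn (hG0 u)
    | succ n => exact ⟨_, (hG1 n u).1 hn⟩

theorem bdd_of_ae {u : ℕ → XX (ℕ × ℕ) × V} {g : ℕ → XX (ℕ × ℕ) × V'} (h : AE u g)
    (hg : ∃ r, ∀ k, (g k).1 ∈ ball r) : ∃ r, ∀ k, (u k).1 ∈ ball r := by
  obtain ⟨r, hr⟩ := hg
  obtain ⟨N, hN⟩ := eventually_atTop.1 h
  have h1 : ∀ k, ∃ n : ℕ, (u k).1 ∈ ball (n : ℝ) := fun k => exists_mem_ball _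
  choose n hn using h1
  refine ⟨max r (∑ k ∈ Finset.range N, (n k : ℝ)), fun k => ?_⟩
  rcases Nat.lt_or_ge k N with hk | hk
  · refine ball_mono (le_trans ?_ (le_max_right _ _)) (hn k)
    exact Finset.single_le_sum (f := fun k => (n k : ℝ)) (fun i _ => Nat.cast_nonneg _)
      (Finset.mem_range.2 hk)
  · rw [← hN k hk]
    exact ball_mono (le_max_left _ _) (hr k)

/-- **The homeomorphism of the bounded elements.** -/
theorem exists_bdd_homeo (hl : HasLine) (hc : HasCode V) (hc' : HasCode V')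
    (hcut : ∀ (F : (ℕ → XX (ℕ × ℕ) × V) → ℝ), Continuous F → ∀ n : ℕ,
      ∃ w : ℕ → (ℕ → XX (ℕ × ℕ) × V) → ℝ, IsCutoff w {x | F x = 0} n)
    (hcut' : ∀ (F : (ℕ → XX (ℕ × ℕ) × V') → ℝ), Continuous F → ∀ n : ℕ,
      ∃ w : ℕ → (ℕ → XX (ℕ × ℕ) × V') → ℝ, IsCutoff w {x | F x = 0} n)
    (H0 : (ℕ → XX (ℕ × ℕ) × V) ≃ₜ (ℕ → XX (ℕ × ℕ) × V'))
    (hH0 : ∀ u k c, 1 ≤ c → proj c (H0 u k).1 = proj c (u k).1) :
    ∃ h : {u : ℕ → XX (ℕ × ℕ) × V // ∃ r, ∀ k, (u k).1 ∈ ball r} ≃ₜ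
      {g : ℕ → XX (ℕ × ℕ) × V' // ∃ r, ∀ k, (g k).1 ∈ ball r},
      ∀ u, ∀ᶠ k in atTop, ((h u).1 k).1 = (u.1 k).1 := by
  obtain ⟨G, hG, hG0, hG1⟩ := exists_G V
  obtain ⟨G', hG', hG0', hG1'⟩ := exists_G V'
  have hm : ∀ n u, G n u = 0 → G (n + 1) u = 0 := by
    intro n u hu
    cases n with
    | zero => exact absurd hu (hG0 u)
    | succ n =>
      rw [hG1]
      intro k
      refine ball_mono ?_ ((hG1 n u).1 hu k)
      push_cast
      linarith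
  have hm' : ∀ n u, G' n u = 0 → G' (n + 1) u = 0 := by
    intro n u hu
    cases n with
    | zero => exact absurd hu (hG0' u)
    | succ n =>
      rw [hG1']
      intro k
      refine ball_mono ?_ ((hG1' n u).1 hu k)
      push_cast
      linarith
  exact exists_homeo (fun c f => proj c f) G G' hG hG' hm hm' (halfStep hl hc hcut' G hG1)
    (halfStep hl hc' hcut G' hG1') H0
    ⟨fun u k c hc => hH0 u k c (by omega), fun u hu => by
      rcases hu with h | h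
      · exact absurd h (hG0 u)
      · exact absurd h (hG0' _)⟩
    (fun u => ∃ r, ∀ k, (u k).1 ∈ ball r) (fun g => ∃ r, ∀ k, (g k).1 ∈ ball r)
    (bdd_iff G hG0 hG1) (bdd_iff G' hG0' hG1')
    (fun u g h => ⟨fun hu => bdd_of_ae h.symm hu, fun hg => bdd_of_ae h hg⟩)

end

end Pool.Agent.CPY
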