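import Mathlib
import Pool.Agent.CPY.Main

/-!
# The code of a bounded sequence and of a sequence of real numbers by one bounded function
-/

set_option autoImplicit false

namespace Pool.Agent.CPY

open Set Filter Topology

/-- clamp to `[0, 1]` -/
noncomputable def cl (x : ℝ) : ℝ := max 0 (min 1 x)

theorem cl_nonneg (x : ℝ) : 0 ≤ cl x := le_max_left _ _

theorem cl_le_one (x : ℝ) : cl x ≤ 1 := max_le zero_le_one (min_le_left _ _)

theorem cl_of_one_le {x : ℝ} (h : 1 ≤ x) : cl x = 1 := by
  rw [cl, min_eq_left h, max_eq_right zero_le_one]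

theorem cl_of_nonpos {x : ℝ} (h : x ≤ 0) : cl x = 0 := by
  rw [cl, min_eq_right (h.trans zero_le_one), max_eq_left h]

theorem cl_of_mem {x : ℝ} (h : 0 ≤ x) (h' : x ≤ 1) : cl x = x := by
  rw [cl, min_eq_right h', max_eq_right h]

theorem continuous_cl : Continuous cl := continuous_const.max (continuous_const.min continuous_id)

theorem abs_cl_sub_le (x y : ℝ) : |cl x - cl y| ≤ |x - y| := by
  have h1 := abs_max_sub_max_le_abs (min 1 x) (min 1 y) 0
  have h2 := abs_min_sub_min_le_max 1 x 1 y
  unfold cl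
  rw [max_comm 0 (min 1 x), max_comm 0 (min 1 y)]
  refine h1.trans (h2.trans ?_)
  rw [sub_self, abs_zero, max_eq_right (abs_nonneg _)]

/-- The unary code of a real number. -/
noncomputable def unary (t : ℝ) : XX ℕ := ⟨fun j => cl (t - j), 1, fun j => by
  rw [abs_of_nonneg (cl_nonneg _)]
  exact cl_le_one _⟩

@[simp] theorem unary_apply (t : ℝ) (j : ℕ) : unary t j = cl (t - j) := rfl

theorem continuous_unary : Continuous unary := by
  refine continuous_of_ev fun q => ?_
  have h : LipschitzWith 1 fun t => ev q (unary t) := by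
    refine LipschitzWith.of_dist_le_mul fun t t' => ?_
    rw [Real.dist_eq, Real.dist_eq, ← map_sub, NNReal.coe_one, one_mul]
    refine abs_ev_le (A := univ) Filter.univ_mem fun j _ => ?_
    rw [XX.sub_apply, unary_apply, unary_apply]
    refine (abs_cl_sub_le _ _).trans (le_of_eq ?_)
    congr 1
    ring
  exact h.continuous

/-- the terms of the decoder -/
noncomputable def term (i : ℕ) (y : XX ℕ) : ℝ :=
  (∏ j ∈ Finset.range i, cl (2 * y j - 1)) * cl (y i)

theorem continuous_term (i : ℕ) : Continuous (term i) := by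
  unfold term
  refine (continuous_finsetProd _ fun j _ => ?_).mul (continuous_cl.comp (continuous_apply_XX i))
  exact continuous_cl.comp ((continuous_const.mul (continuous_apply_XX j)).sub continuous_const)

theorem term_eq_zero {y : XX ℕ} {j : ℕ} (hj : y j < 1 / 2) {i : ℕ} (hi : j < i) :
    term i y = 0 := by
  unfold term
  rw [Finset.prod_eq_zero (Finset.mem_range.2 hi) (cl_of_nonpos (by linarith)), zero_mul]

/-- The decoder of the unary code. -/
noncomputable def dec1 (y : XX ℕ) : ℝ :=
  max 0 (1 - 3 * |ev (hyperfilter ℕ) y|) * ∑' i, term i y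

theorem exists_small {y : XX ℕ} (h : |ev (hyperfilter ℕ) y| < 1 / 2) : ∃ j, y j < 1 / 2 := by
  have h1 : ∀ᶠ j in (hyperfilter ℕ : Filter ℕ), y j < 1 / 2 :=
    (tendsto_ev y (hyperfilter ℕ)).eventually (gt_mem_nhds (abs_lt.1 h).2)
  exact h1.exists

theorem continuous_dec1 : Continuous dec1 := by
  rw [continuous_iff_continuousAt]
  intro y
  have hc : Continuous fun y : XX ℕ => max 0 (1 - 3 * |ev (hyperfilter ℕ) y|) :=
    continuous_const.max (continuous_const.sub
      (continuous_const.mul (continuous_ev (hyperfilter ℕ)).abs))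
  rcases lt_or_ge |ev (hyperfilter ℕ) y| (1 / 2) with h | h
  · obtain ⟨j, hj⟩ := exists_small h
    have h1 : ∀ᶠ y' in 𝓝 y, y'.toFun j < 1 / 2 :=
      ((continuous_apply_XX j).tendsto y).eventually (gt_mem_nhds hj)
    have h2 : Continuous fun y' : XX ℕ => max 0 (1 - 3 * |ev (hyperfilter ℕ) y'|) *
        ∑ i ∈ Finset.range (j + 1), term i y' :=
      hc.mul (continuous_finsetSum _ fun i _ => continuous_term i)
    refine (h2.continuousAt (x := y)).congr ?_
    filter_upwards [h1] with y' hy'
    unfold dec1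
    rw [tsum_eq_sum]
    intro i hi
    rw [Finset.mem_range] at hi
    exact term_eq_zero hy' (by omega)
  · have h1 : ∀ᶠ y' in 𝓝 y, 1 / 3 < |ev (hyperfilter ℕ) y'| :=
      ((continuous_ev (hyperfilter ℕ)).abs.tendsto y).eventually (lt_mem_nhds (by linarith))
    refine (continuousAt_const (y := (0 : ℝ))).congr ?_
    filter_upwards [h1] with y' hy'
    unfold dec1
    rw [max_eq_left (by linarith), zero_mul]

theorem ev_unary (t : ℝ) : ev (hyperfilter ℕ) (unary t) = 0 := by
  rw [← map_zero (ev (hyperfilter ℕ))]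
  obtain ⟨n, hn⟩ := exists_nat_ge t
  have h1 : {j : ℕ | n ≤ j} ∈ hyperfilter ℕ := by
    have h2 : {j : ℕ | n ≤ j} ∈ (cofinite : Filter ℕ) := by
      rw [Nat.cofinite_eq_atTop]
      exact mem_atTop n
    exact hyperfilter_le_cofinite h2
  refine ev_congr h1 fun j hj => ?_
  have h3 : (n : ℝ) ≤ j := by exact_mod_cast hj
  rw [unary_apply, cl_of_nonpos (by linarith)]
  rfl

theorem dec1_unary (t : ℝ) : dec1 (unary t) = max 0 t := by
  unfold dec1
  rw [ev_unary, abs_zero, mul_zero, sub_zero, max_eq_right zero_le_one, one_mul]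
  rcases le_or_gt t 0 with ht | ht
  · rw [max_eq_left ht]
    have h1 : ∀ i, term i (unary t) = 0 := by
      intro i
      unfold term
      have h2 : (0 : ℝ) ≤ i := Nat.cast_nonneg i
      rw [unary_apply, cl_of_nonpos (x := t - i) (by linarith), cl_of_nonpos le_rfl, mul_zero]
    rw [tsum_congr h1, tsum_zero]
  · rw [max_eq_right ht.le]
    have h0 := Nat.floor_le ht.le
    have h1 := Nat.lt_floor_add_one t
    have h2 : ∀ j < ⌊t⌋₊, unary t j = 1 := by
      intro j hj
      have h3 : (j : ℝ) + 1 ≤ ⌊t⌋₊ := by exact_mod_cast hj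
      rw [unary_apply, cl_of_one_le (by linarith)]
    have h3 : unary t ⌊t⌋₊ = t - ⌊t⌋₊ := by
      rw [unary_apply, cl_of_mem (by linarith) (by linarith)]
    have h4 : ∀ j, ⌊t⌋₊ < j → unary t j = 0 := by
      intro j hj
      have h5 : (⌊t⌋₊ : ℝ) + 1 ≤ j := by exact_mod_cast hj
      rw [unary_apply, cl_of_nonpos (by linarith)]
    have h5 : ∀ i ≤ ⌊t⌋₊, ∏ j ∈ Finset.range i, cl (2 * unary t j - 1) = 1 := by
      intro i hi
      refine Finset.prod_eq_one fun j hj => ?_
      rw [Finset.mem_range] at hj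
      rw [h2 j (hj.trans_le hi), cl_of_one_le (by norm_num)]
    rw [tsum_eq_sum (s := Finset.range (⌊t⌋₊ + 1)), Finset.sum_range_succ]
    · have h6 : ∀ i ∈ Finset.range ⌊t⌋₊, term i (unary t) = 1 := by
        intro i hi
        rw [Finset.mem_range] at hi
        unfold term
        rw [h5 i hi.le, h2 i hi, cl_of_one_le le_rfl, one_mul]
      rw [Finset.sum_congr rfl h6, Finset.sum_const, Finset.card_range, nsmul_eq_mul, mul_one]
      unfold term
      rw [h5 _ le_rfl, h3, cl_of_mem (by linarith) (by linarith), one_mul]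
      ring
    · intro i hi
      rw [Finset.mem_range] at hi
      unfold term
      rw [h4 i (by omega), cl_of_nonpos le_rfl, mul_zero]

/-- the index set of one block of the code -/
abbrev RR : Type := (ℕ × ℕ) ⊕ (ℕ ⊕ ℕ)

theorem inl_inj : Function.Injective (Sum.inl : ℕ × ℕ → RR) := Sum.inl_injective

theorem inr_inl_inj : Function.Injective fun j : ℕ => (Sum.inr (Sum.inl j) : RR) :=
  fun _ _ h => Sum.inl_injective (Sum.inr_injective h)

theorem inr_inr_inj : Function.Injective fun j : ℕ => (Sum.inr (Sum.inr j) : RR) :=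
  fun _ _ h => Sum.inr_injective (Sum.inr_injective h)

/-- the code of one block -/
noncomputable def code1 (r : ℝ) (x : XX (ℕ × ℕ) × ℝ) : XX RR :=
  push Sum.inl inl_inj (trunc r x.1) + push _ inr_inl_inj (unary x.2) +
    push _ inr_inr_inj (unary (-x.2))

theorem continuous_code1 (r : ℝ) : Continuous (code1 r) :=
  (((push Sum.inl inl_inj).continuous.comp ((continuous_trunc r).comp continuous_fst)).add
    ((push _ inr_inl_inj).continuous.comp (continuous_unary.comp continuous_snd))).add
    ((push _ inr_inr_inj).continuous.comp (continuous_unary.comp continuous_snd.neg))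

theorem code1_inl (r : ℝ) (x : XX (ℕ × ℕ) × ℝ) (p : ℕ × ℕ) :
    code1 r x (Sum.inl p) = trunc r x.1 p := by
  unfold code1
  rw [XX.add_apply, XX.add_apply, push_apply, push_apply_of_notMem _ inr_inl_inj,
    push_apply_of_notMem _ inr_inr_inj, add_zero, add_zero]
  · rintro ⟨j, hj⟩
    exact Sum.inr_ne_inl hj
  · rintro ⟨j, hj⟩
    exact Sum.inr_ne_inl hj

theorem code1_inr_inl (r : ℝ) (x : XX (ℕ × ℕ) × ℝ) (j : ℕ) :
    code1 r x (Sum.inr (Sum.inl j)) = unary x.2 j := by
  unfold code1
  rw [XX.add_apply, XX.add_apply, push_apply_of_notMem _ inl_inj,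
    push_apply (fun j : ℕ => (Sum.inr (Sum.inl j) : RR)) inr_inl_inj (unary x.2) j,
    push_apply_of_notMem _ inr_inr_inj, add_zero, zero_add]
  · rintro ⟨i, hi⟩
    exact Sum.inr_ne_inl (Sum.inr_injective hi)
  · rintro ⟨i, hi⟩
    exact Sum.inl_ne_inr hi

theorem code1_inr_inr (r : ℝ) (x : XX (ℕ × ℕ) × ℝ) (j : ℕ) :
    code1 r x (Sum.inr (Sum.inr j)) = unary (-x.2) j := by
  unfold code1
  rw [XX.add_apply, XX.add_apply, push_apply_of_notMem _ inl_inj,
    push_apply (fun j : ℕ => (Sum.inr (Sum.inr j) : RR)) inr_inr_inj (unary (-x.2)) j,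
    push_apply_of_notMem _ inr_inl_inj, add_zero, zero_add]
  · rintro ⟨i, hi⟩
    exact Sum.inl_ne_inr (Sum.inr_injective hi)
  · rintro ⟨i, hi⟩
    exact Sum.inl_ne_inr hi

theorem abs_code1_le (r : ℝ) (x : XX (ℕ × ℕ) × ℝ) (s : RR) : |code1 r x s| ≤ |r| + 1 := by
  have h0 : ∀ t : ℝ, ∀ j : ℕ, |unary t j| ≤ |r| + 1 := by
    intro t j
    rw [unary_apply, abs_of_nonneg (cl_nonneg _)]
    linarith [cl_le_one (t - j), abs_nonneg r]
  rcases s with p | j | j
  · rw [code1_inl, trunc_apply, abs_le]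
    have h1 := le_abs_self r
    have h2 := neg_le_abs r
    constructor
    · exact (by linarith : -(|r| + 1) ≤ -r).trans (le_max_left _ _)
    · exact max_le (by linarith) ((min_le_left _ _).trans (by linarith))
  · rw [code1_inr_inl]
    exact h0 _ _
  · rw [code1_inr_inr]
    exact h0 _ _

theorem blk_inj (k : ℕ) : Function.Injective fun s : RR => ((k, s) : ℕ × RR) :=
  fun _ _ h => (Prod.mk.inj h).2

/-- The code. -/
noncomputable def codeA (r : ℝ) (u : ℕ → XX (ℕ × ℕ) × ℝ) : XX (ℕ × RR) :=
  ⟨fun p => (1 / 2 : ℝ) ^ p.1 * code1 r (u p.1) p.2, |r| + 1, fun p => by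
    rw [abs_mul, abs_of_pos (by positivity : (0 : ℝ) < (1 / 2) ^ p.1)]
    have h1 : ((1 : ℝ) / 2) ^ p.1 ≤ 1 := pow_le_one₀ (by norm_num) (by norm_num)
    have h2 := abs_code1_le r (u p.1) p.2
    have h3 := abs_nonneg (code1 r (u p.1) p.2)
    nlinarith⟩

theorem codeA_apply (r : ℝ) (u : ℕ → XX (ℕ × ℕ) × ℝ) (k : ℕ) (s : RR) :
    codeA r u (k, s) = (1 / 2 : ℝ) ^ k * code1 r (u k) s := rfl

theorem continuous_codeA (r : ℝ) : Continuous (codeA r) := by
  refine continuous_of_sum
    (fun k u => push (fun s : RR => ((k, s) : ℕ × RR)) (blk_inj k)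
      ((1 / 2 : ℝ) ^ k • code1 r (u k))) ?_ (fun k => (1 / 2 : ℝ) ^ k * (|r| + 1)) ?_ ?_ _ ?_
  · intro k
    exact (push _ (blk_inj k)).continuous.comp
      (((continuous_code1 r).comp (continuous_apply k)).const_smul ((1 / 2 : ℝ) ^ k))
  · exact summable_geometric_two.mul_right _
  · rintro k u ⟨i, s⟩
    by_cases h : i = k
    · subst h
      rw [push_apply (fun s : RR => ((i, s) : ℕ × RR)) (blk_inj i), XX.smul_apply, abs_mul,
        abs_of_pos (by positivity : (0 : ℝ) < (1 / 2) ^ i)]
      exact mul_le_mul_of_nonneg_left (abs_code1_le r (u i) s) (by positivity)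
    · rw [push_apply_of_notMem _ (blk_inj k), abs_zero]
      · positivity
      · rintro ⟨s', hs'⟩
        exact h (Prod.mk.inj hs').1.symm
  · rintro u ⟨i, s⟩
    rw [tsum_eq_single i]
    · rw [push_apply (fun s : RR => ((i, s) : ℕ × RR)) (blk_inj i), XX.smul_apply]
      rfl
    · intro k hk
      refine push_apply_of_notMem _ (blk_inj k) _ ?_
      rintro ⟨s', hs'⟩
      exact hk (Prod.mk.inj hs').1

/-- The decoder. -/
noncomputable def decA (y : XX (ℕ × RR)) (k : ℕ) : XX (ℕ × ℕ) × ℝ :=
  ((2 : ℝ) ^ k • pull (fun p => (k, Sum.inl p)) y,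
    dec1 ((2 : ℝ) ^ k • pull (fun j => (k, Sum.inr (Sum.inl j))) y) -
      dec1 ((2 : ℝ) ^ k • pull (fun j => (k, Sum.inr (Sum.inr j))) y))

theorem continuous_decA : Continuous decA := by
  refine continuous_pi fun k => ?_
  refine ((pull (fun p => (k, Sum.inl p))).continuous.const_smul ((2 : ℝ) ^ k)).prodMk ?_
  exact (continuous_dec1.comp
      ((pull (fun j => (k, Sum.inr (Sum.inl j)))).continuous.const_smul ((2 : ℝ) ^ k))).sub
    (continuous_dec1.comp
      ((pull (fun j => (k, Sum.inr (Sum.inr j)))).continuous.const_smul ((2 : ℝ) ^ k)))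

theorem two_half (k : ℕ) (x : ℝ) : (2 : ℝ) ^ k * ((1 / 2 : ℝ) ^ k * x) = x := by
  rw [← mul_assoc, ← mul_pow]
  norm_num

theorem decA_codeA {r : ℝ} {u : ℕ → XX (ℕ × ℕ) × ℝ} (hu : ∀ k, (u k).1 ∈ ball r) :
    decA (codeA r u) = u := by
  funext k
  have h1 : (2 : ℝ) ^ k • pull (fun p => (k, Sum.inl p)) (codeA r u) = (u k).1 := by
    ext p
    rw [XX.smul_apply, pull_apply, codeA_apply, two_half, code1_inl, trunc_eq (hu k)]
  have h2 : (2 : ℝ) ^ k • pull (fun j => (k, Sum.inr (Sum.inl j))) (codeA r u) =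
      unary (u k).2 := by
    ext j
    rw [XX.smul_apply, pull_apply, codeA_apply, two_half, code1_inr_inl]
  have h3 : (2 : ℝ) ^ k • pull (fun j => (k, Sum.inr (Sum.inr j))) (codeA r u) =
      unary (-(u k).2) := by
    ext j
    rw [XX.smul_apply, pull_apply, codeA_apply, two_half, code1_inr_inr]
  change (_, _) = u k
  rw [h1, h2, h3, dec1_unary, dec1_unary]
  refine Prod.ext rfl ?_
  change max 0 (u k).2 - max 0 (-(u k).2) = (u k).2
  rcases le_total 0 (u k).2 with h | h
  · rw [max_eq_right h, max_eq_left (by linarith), sub_zero]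
  · rw [max_eq_left h, max_eq_right (by linarith)]
    ring

theorem hasCode_real : HasCode ℝ := by
  intro r
  let e : ℕ × RR ≃ ℕ := Denumerable.eqv (ℕ × RR)
  refine ⟨fun u => reindex e (codeA r u), fun y => decA ((reindex e).symm y), ?_, ?_, ?_⟩
  · exact (reindex e).continuous.comp (continuous_codeA r)
  · exact continuous_decA.comp (reindex e).symm.continuous
  · intro u hu
    change decA ((reindex e).symm (reindex e (codeA r u))) = u
    rw [Homeomorph.symm_apply_apply, decA_codeA hu]

theorem hasCode_of_retract {V : Type} [TopologicalSpace V] (a : V → ℝ) (ha : Continuous a)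
    (b : ℝ → V) (hb : Continuous b) (hab : ∀ v, b (a v) = v) : HasCode V := by
  intro r
  obtain ⟨Code, Dec, h1, h2, h3⟩ := hasCode_real r
  refine ⟨fun u => Code fun k => ((u k).1, a (u k).2), fun y k => ((Dec y k).1, b (Dec y k).2),
    ?_, ?_, ?_⟩
  · refine h1.comp (continuous_pi fun k => ?_)
    exact (continuous_fst.comp (continuous_apply k)).prodMk
      (ha.comp (continuous_snd.comp (continuous_apply k)))
  · refine continuous_pi fun k => ?_
    have h4 : Continuous fun y => Dec y k := (continuous_apply k).comp h2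
    exact h4.fst.prodMk (hb.comp h4.snd)
  · intro u hu
    funext k
    have h5 := h3 (fun k => ((u k).1, a (u k).2)) hu
    change ((Dec (Code fun k => ((u k).1, a (u k).2)) k).1,
      b (Dec (Code fun k => ((u k).1, a (u k).2)) k).2) = u k
    rw [h5, hab]

theorem hasCode_punit : HasCode PUnit :=
  hasCode_of_retract (fun _ => 0) continuous_const (fun _ => PUnit.unit) continuous_const
    fun _ => rfl

end Pool.Agent.CPY
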