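import Mathlib
import Pool.Agent.CPY.Cutoff
import Pool.Agent.CPY.Model

/-!
# The cut-off sequences for the two spaces
-/

set_option autoImplicit false

namespace Pool.Agent.CPY

open Set Filter Topology

theorem exists_cutoff_real (F : (ℕ → XX (ℕ × ℕ) × ℝ) → ℝ) (hF : Continuous F) (n : ℕ) :
    ∃ w : ℕ → (ℕ → XX (ℕ × ℕ) × ℝ) → ℝ, IsCutoff w {x | F x = 0} n := by
  let s : (Ultrafilter (ℕ × ℕ) ⊕ Unit → ℝ) ≃ₜ (Ultrafilter (ℕ × ℕ) → ℝ) × (Unit → ℝ) :=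
    Homeomorph.sumArrowHomeomorphProdArrow
  let c : ℝ ≃ₜ (Unit → ℝ) := (Homeomorph.funUnique Unit ℝ).symm
  refine exists_cutoff (I := Ultrafilter (ℕ × ℕ) ⊕ Unit)
    (fun z => s.symm (Prod.map (fun (f : XX (ℕ × ℕ)) (q : Ultrafilter (ℕ × ℕ)) => ev q f) c z))
    ?_ ?_ F hF n
  · exact s.symm.isInducing.comp (isInducing_ev.prodMap c.isInducing)
  · exact s.symm.surjective.denseRange.comp (denseRange_ev.prodMap c.surjective.denseRange)
      s.symm.continuous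

theorem exists_cutoff_punit (F : (ℕ → XX (ℕ × ℕ) × PUnit.{1}) → ℝ) (hF : Continuous F) (n : ℕ) :
    ∃ w : ℕ → (ℕ → XX (ℕ × ℕ) × PUnit.{1}) → ℝ, IsCutoff w {x | F x = 0} n := by
  let c : XX (ℕ × ℕ) × PUnit.{1} ≃ₜ XX (ℕ × ℕ) := Homeomorph.prodPUnit _
  refine exists_cutoff (I := Ultrafilter (ℕ × ℕ))
    (fun z => (fun (f : XX (ℕ × ℕ)) (q : Ultrafilter (ℕ × ℕ)) => ev q f) (c z)) ?_ ?_ F hF n
  · exact isInducing_ev.comp c.isInducing
  · exact denseRange_ev.comp c.surjective.denseRange isInducing_ev.continuous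

end Pool.Agent.CPY
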