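import Pool.Agent.CPY.Model

/-!
# The maps `Y_j`

`Y_j(a) = 2^-j a_j + ∑_{i ≥ j} T_{ρ_i} (2^-(i+1) a_{i+1} - 2^-i a_i)` reads off the parameter on a line of
direction `(2^i)`, and vanishes on the bounded sequences.
-/

set_option autoImplicit false

namespace Pool.Agent.CPY

open Set Filter Topology

variable {S : Type}

/-- the level of the `i`-th truncation -/
noncomputable def yrho (r : ℝ) (i : ℕ) : ℝ := r * ((1 / 2 : ℝ) ^ (i + 1) + (1 / 2) ^ i)

lemma yrho_nonneg {r : ℝ} (hr : 0 ≤ r) (i : ℕ) : 0 ≤ yrho r i := by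
  unfold yrho
  positivity

lemma yrho_summable (r : ℝ) : Summable (yrho r) := by
  unfold yrho
  have h : Summable fun i : ℕ => (1 / 2 : ℝ) ^ i := summable_geometric_two
  exact (((summable_nat_add_iff 1).2 h).add h).mul_left r

/-- the `i`-th term -/
noncomputable def yterm (r : ℝ) (i : ℕ) (a : ℕ → XX S) : XX S :=
  trunc (yrho r i) ((1 / 2 : ℝ) ^ (i + 1) • a (i + 1) - (1 / 2 : ℝ) ^ i • a i)

lemma abs_clampy {ρ t : ℝ} (hρ : 0 ≤ ρ) : |max (-ρ) (min ρ t)| ≤ ρ :=
  abs_le.2 ⟨le_max_left _ _, max_le (by linarith) (min_le_left _ _)⟩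

lemma clampy_self {ρ t : ℝ} (h : |t| ≤ ρ) : max (-ρ) (min ρ t) = t := by
  rw [min_eq_right (abs_le.1 h).2, max_eq_right (abs_le.1 h).1]

lemma yterm_abs {r : ℝ} (hr : 0 ≤ r) (i : ℕ) (a : ℕ → XX S) (s : S) : |yterm r i a s| ≤ yrho r i := by
  unfold yterm
  rw [trunc_apply]
  exact abs_clampy (yrho_nonneg hr i)

lemma yterm_cont (r : ℝ) (i : ℕ) : Continuous (yterm (S := S) r i) := by
  have h0 : ∀ m, Continuous fun a : ℕ → XX S => a m := fun m => continuous_apply m
  have h1 : Continuous fun a : ℕ → XX S => (1 / 2 : ℝ) ^ (i + 1) • a (i + 1) :=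
    (continuous_const_smul ((1 / 2 : ℝ) ^ (i + 1))).comp (h0 (i + 1))
  have h2 : Continuous fun a : ℕ → XX S => (1 / 2 : ℝ) ^ i • a i :=
    (continuous_const_smul ((1 / 2 : ℝ) ^ i)).comp (h0 i)
  exact (continuous_trunc _).comp (h1.sub h2)

lemma yterm_summable {r : ℝ} (hr : 0 ≤ r) (j : ℕ) (a : ℕ → XX S) (s : S) :
    Summable fun i => yterm r (j + i) a s := by
  refine Summable.of_norm_bounded (g := fun i => yrho r (j + i)) ?_ (fun i => ?_)
  · have := (summable_nat_add_iff j).2 (yrho_summable r)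
    simpa only [add_comm] using this
  · rw [Real.norm_eq_abs]
    exact yterm_abs hr _ a s

/-- the sum of the terms from `j` on -/
noncomputable def ysum {r : ℝ} (hr : 0 ≤ r) (j : ℕ) (a : ℕ → XX S) : XX S where
  toFun s := ∑' i, yterm r (j + i) a s
  bdd := by
    have hM : Summable fun i => yrho r (j + i) := by
      have := (summable_nat_add_iff j).2 (yrho_summable r)
      simpa only [add_comm] using this
    refine ⟨∑' i, yrho r (j + i), fun s => ?_⟩
    rw [← Real.norm_eq_abs]
    exact tsum_of_norm_bounded hM.hasSum (fun i => by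
      rw [Real.norm_eq_abs]
      exact yterm_abs hr _ a s)

lemma ysum_cont {r : ℝ} (hr : 0 ≤ r) (j : ℕ) : Continuous (ysum (S := S) hr j) := by
  refine continuous_of_sum (fun i a => yterm r (j + i) a) (fun i => yterm_cont r _)
    (fun i => yrho r (j + i)) ?_ (fun i a s => yterm_abs hr _ a s) _ (fun a s => rfl)
  have := (summable_nat_add_iff j).2 (yrho_summable r)
  simpa only [add_comm] using this

/-- the maps `Y_j` -/
theorem exists_Yj (S : Type) (r : ℝ) (hr : 0 ≤ r) :
    ∃ Yj : ℕ → (ℕ → XX S) → XX S, (∀ j, Continuous (Yj j)) ∧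
      (∀ j a, (∀ i, a i ∈ ball r) → Yj j a = 0) ∧
      (∀ j a a' y, (∀ i, j ≤ i → a' i = a i + (2 : ℝ) ^ i • y) → Yj j a' = Yj j a + y) := by
  refine ⟨fun j a => (1 / 2 : ℝ) ^ j • a j + ysum hr j a, fun j => ?_, fun j a ha => ?_,
    fun j a a' y h => ?_⟩
  · have h0 : Continuous fun a : ℕ → XX S => a j := continuous_apply j
    have h1 : Continuous fun a : ℕ → XX S => (1 / 2 : ℝ) ^ j • a j :=
      (continuous_const_smul ((1 / 2 : ℝ) ^ j)).comp h0
    exact h1.add (ysum_cont hr j)
  · refine XX.ext fun s => ?_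
    have h1 : ∀ i, yterm r i a s = (1 / 2 : ℝ) ^ (i + 1) * a (i + 1) s - (1 / 2 : ℝ) ^ i * a i s := by
      intro i
      unfold yterm
      rw [trunc_apply, XX.sub_apply, XX.smul_apply, XX.smul_apply]
      refine clampy_self ((abs_sub _ _).trans ?_)
      rw [abs_mul, abs_mul, abs_of_nonneg (by positivity : (0 : ℝ) ≤ (1 / 2) ^ (i + 1)),
        abs_of_nonneg (by positivity : (0 : ℝ) ≤ (1 / 2) ^ i), yrho, mul_add, mul_comm r, mul_comm r]
      exact add_le_add (mul_le_mul_of_nonneg_left (ha _ s) (by positivity))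
        (mul_le_mul_of_nonneg_left (ha _ s) (by positivity))
    have h2 : ∀ n, ∑ i ∈ Finset.range n, yterm r (j + i) a s =
        (1 / 2 : ℝ) ^ (j + n) * a (j + n) s - (1 / 2 : ℝ) ^ j * a j s := by
      intro n
      induction n with
      | zero => simp
      | succ n ih =>
        rw [Finset.sum_range_succ, ih, h1]
        rw [← add_assoc]
        ring
    have h3 : Tendsto (fun n => (1 / 2 : ℝ) ^ (j + n) * a (j + n) s - (1 / 2 : ℝ) ^ j * a j s) atTop
        (𝓝 (0 - (1 / 2 : ℝ) ^ j * a j s)) := by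
      refine Tendsto.sub_const ?_ _
      have h4 : Tendsto (fun n : ℕ => (1 / 2 : ℝ) ^ (j + n) * r) atTop (𝓝 0) := by
        have h5 : Tendsto (fun n : ℕ => (1 / 2 : ℝ) ^ n) atTop (𝓝 0) :=
          tendsto_pow_atTop_nhds_zero_of_lt_one (by norm_num) (by norm_num)
        have h6 := (tendsto_add_atTop_iff_nat (f := fun n : ℕ => (1 / 2 : ℝ) ^ n) j).2 h5
        have h7 := h6.mul_const r
        rw [zero_mul] at h7
        simpa only [add_comm] using h7
      refine squeeze_zero_norm (fun n => ?_) h4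
      rw [Real.norm_eq_abs, abs_mul, abs_of_nonneg (by positivity : (0 : ℝ) ≤ (1 / 2) ^ (j + n))]
      exact mul_le_mul_of_nonneg_left (ha _ s) (by positivity)
    have h4 : ∑' i, yterm r (j + i) a s = 0 - (1 / 2 : ℝ) ^ j * a j s := by
      have h5 := (yterm_summable hr j a s).hasSum.tendsto_sum_nat
      simp only [h2] at h5
      exact tendsto_nhds_unique h5 h3
    have h5 : ysum hr j a s = ∑' i, yterm r (j + i) a s := rfl
    rw [XX.add_apply, XX.smul_apply, XX.zero_apply, h5, h4]
    ring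
  · refine XX.ext fun s => ?_
    have h1 : ∀ i, yterm r (j + i) a' s = yterm r (j + i) a s := by
      intro i
      unfold yterm
      rw [trunc_apply, trunc_apply, h (j + i) (by omega), h (j + i + 1) (by omega)]
      simp only [XX.sub_apply, XX.smul_apply, XX.add_apply]
      congr 2
      have h2 : ∀ m : ℕ, (1 / 2 : ℝ) ^ m * (2 : ℝ) ^ m = 1 := by
        intro m
        rw [← mul_pow]
        norm_num
      have h3 := h2 (j + i)
      have h4 := h2 (j + i + 1)
      linear_combination (y s) * h4 - (y s) * h3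
    have h5 : ysum hr j a' s = ∑' i, yterm r (j + i) a' s := rfl
    have h6 : ysum hr j a s = ∑' i, yterm r (j + i) a s := rfl
    have h7 : (1 / 2 : ℝ) ^ j * (2 : ℝ) ^ j = 1 := by
      rw [← mul_pow]
      norm_num
    simp only [XX.add_apply, XX.smul_apply, h5, h6, h1, h j le_rfl]
    linear_combination (y s) * h7

end Pool.Agent.CPY
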