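import Mathlib
import Pool.Agent.CPB.Bridge
import Pool.Agent.CPY.Model

/-!
# The model `XX ℕ` and the space of continuous functions on `βω`
-/

set_option autoImplicit false

namespace Pool.Agent.CPY

open Set Filter Topology

/-- the point of `βω` given by an ultrafilter -/
theorem exists_point (q : Ultrafilter ℕ) : ∃ p : StoneCech ℕ,
    Tendsto (fun n => (stoneCechUnit n : StoneCech ℕ)) q (𝓝 p) := by
  obtain ⟨p, -, hp⟩ := isCompact_univ.ultrafilter_le_nhds
    (q.map (fun n => (stoneCechUnit n : StoneCech ℕ))) (by simp)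
  exact ⟨p, hp⟩

/-- the extension of a bounded function to `βω` -/
noncomputable def extSC (f : XX ℕ) : {f : StoneCech ℕ → ℝ // Continuous f} :=
  (CPB.exists_ext f.toFun f.bdd.choose f.bdd.choose_spec).choose

theorem extSC_unit (f : XX ℕ) (n : ℕ) : (extSC f).1 (stoneCechUnit n) = f n :=
  (CPB.exists_ext f.toFun f.bdd.choose f.bdd.choose_spec).choose_spec.1 n

theorem extSC_apply (f : XX ℕ) (p : StoneCech ℕ) : (extSC f).1 p = ev (CPB.ufil p) f := by
  apply CPB.value_eq_of_tendsto
  refine (tendsto_ev f (CPB.ufil p)).congr ?_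
  intro n
  exact (extSC_unit f n).symm

/-- the restriction to `ω` of a continuous function on `βω` -/
noncomputable def resSC (g : {f : StoneCech ℕ → ℝ // Continuous f}) : XX ℕ :=
  ⟨fun n => g.1 (stoneCechUnit n), by
    obtain ⟨C, hC⟩ := CPB.bounded g
    exact ⟨C, fun n => hC _⟩⟩

theorem ev_resSC (g : {f : StoneCech ℕ → ℝ // Continuous f}) (q : Ultrafilter ℕ)
    {p : StoneCech ℕ} (hp : Tendsto (fun n => (stoneCechUnit n : StoneCech ℕ)) q (𝓝 p)) :
    ev q (resSC g) = g.1 p :=
  tendsto_nhds_unique (tendsto_ev (resSC g) q) ((g.2.tendsto p).comp hp)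

/-- `XX ℕ` is the space of continuous functions on `βω` with the pointwise topology. -/
noncomputable def toStoneCech : XX ℕ ≃ₜ {f : StoneCech ℕ → ℝ // Continuous f} where
  toFun := extSC
  invFun := resSC
  left_inv f := XX.ext fun n => extSC_unit f n
  right_inv g := CPB.ext_un fun n => extSC_unit (resSC g) n
  continuous_toFun := by
    rw [continuous_induced_rng, continuous_pi_iff]
    intro p
    exact (continuous_ev (CPB.ufil p)).congr fun f => (extSC_apply f p).symm
  continuous_invFun := by
    apply continuous_of_ev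
    intro q
    obtain ⟨p, hp⟩ := exists_point q
    exact ((continuous_apply p).comp continuous_subtype_val).congr fun g => (ev_resSC g q hp).symm

end Pool.Agent.CPY
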