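import Pool.Agent.CPY.Model
import Pool.Agent.CPY.SC

/-!
# The reduction to bounded sequences (MP_57c611_gt)

`XX (ℕ × S)` is the set of bounded sequences of elements of `XX S`. A map into `XX (ℕ × S)` is
continuous if each column is continuous and each value has the same columns as the value of a
continuous map, up to finitely many. So a homeomorphism between sets of bounded sequences, in the
product topologies, which changes only finitely many columns of each sequence, gives a
homeomorphism of the spaces `XX`.
-/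

set_option autoImplicit false

namespace Pool.Agent.CPY

namespace Red

open Set Filter Topology

section columns
variable {S S' : Type}

/-- column `k` -/
noncomputable def col (S : Type) (k : ℕ) : XX (ℕ × S) →L[ℝ] XX S := pull (fun p => (k, p))

theorem col_apply (k : ℕ) (f : XX (ℕ × S)) (s : S) : col S k f s = f (k, s) :=
  pull_apply _ _ _

theorem ev_map (i : S' → S) (q : Ultrafilter S') (f : XX S) : ev (q.map i) f = ev q (pull i f) := by
  have h1 : Tendsto (fun s => f (i s)) q (𝓝 (ev (q.map i) f)) := by
    have h := tendsto_ev f (q.map i)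
    rw [Ultrafilter.coe_map] at h
    exact tendsto_map'_iff.1 h
  have h2 : Tendsto (fun s => f (i s)) q (𝓝 (ev q (pull i f))) := by
    refine (tendsto_ev (pull i f) q).congr fun s => ?_
    exact pull_apply i f s
  exact tendsto_nhds_unique h1 h2

/-- a map into `XX (ℕ × S)` is continuous if its columns are and if, at each point, all but
finitely many columns are the ones of a continuous map -/
theorem continuous_of_col {Z : Type*} [TopologicalSpace Z] {F G : Z → XX (ℕ × S)}
    (hG : Continuous G) (h1 : ∀ k, Continuous fun z => col S k (F z))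
    (h2 : ∀ z, ∀ᶠ k in atTop, col S k (F z) = col S k (G z)) : Continuous F := by
  refine continuous_of_ev fun q => ?_
  by_cases hq : ∃ k : ℕ, range (fun p : S => (k, p)) ∈ q
  · obtain ⟨k, hk⟩ := hq
    have hinj : Function.Injective (fun p : S => (k, p)) := fun a b hab => (Prod.mk.inj hab).2
    set q' : Ultrafilter S := Ultrafilter.comap q hinj hk with hq'
    have hqq : q'.map (fun p : S => (k, p)) = q := by
      apply Ultrafilter.coe_injective
      rw [Ultrafilter.coe_map, hq', Ultrafilter.coe_comap]
      exact Filter.map_comap_of_mem hk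
    have he : ∀ z, ev q (F z) = ev q' (col S k (F z)) := fun z => by
      conv_lhs => rw [← hqq]
      exact ev_map _ _ _
    simp_rw [he]
    exact (continuous_ev q').comp (h1 k)
  · push Not at hq
    have he : ∀ z, ev q (F z) = ev q (G z) := fun z => by
      obtain ⟨M, hM⟩ := eventually_atTop.1 (h2 z)
      have hmem : {x : ℕ × S | M ≤ x.1} ∈ (q : Filter (ℕ × S)) := by
        have h3 : (⋃ k ∈ Finset.range M, range (fun p : S => (k, p))) ∉ (q : Filter (ℕ × S)) := by
          intro h
          have := (Ultrafilter.finite_biUnion_mem_iff (Finset.range M).finite_toSet).1 h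
          obtain ⟨k, -, hk⟩ := this
          exact hq k hk
        have h4 := Ultrafilter.compl_mem_iff_notMem.2 h3
        refine mem_of_superset h4 ?_
        rintro ⟨k, s⟩ hx
        by_contra hcon
        apply hx
        rw [mem_iUnion₂]
        exact ⟨k, Finset.mem_range.2 (not_le.1 hcon), s, rfl⟩
      refine tendsto_nhds_unique (tendsto_ev (F z) q) ((tendsto_ev (G z) q).congr' ?_)
      filter_upwards [hmem] with x hx
      have := congrArg (fun f : XX S => f x.2) (hM x.1 hx)
      simp only [col_apply] at this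
      exact this.symm
    simp_rw [he]
    exact (continuous_ev q).comp hG

/-- the element of `XX (ℕ × S)` with given columns -/
def glue (u : ℕ → XX S) (hu : ∃ r, ∀ k, u k ∈ ball r) : XX (ℕ × S) :=
  ⟨fun x => u x.1 x.2, by
    obtain ⟨r, hr⟩ := hu
    exact ⟨r, fun x => hr x.1 x.2⟩⟩

theorem col_glue (u : ℕ → XX S) (hu : ∃ r, ∀ k, u k ∈ ball r) (k : ℕ) :
    col S k (glue u hu) = u k :=
  XX.ext fun _ => col_apply _ _ _

theorem glue_col (f : XX (ℕ × S)) (hu : ∃ r, ∀ k, col S k f ∈ ball r) :
    glue (fun k => col S k f) hu = f :=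
  XX.ext fun s => col_apply s.1 f s.2

theorem col_bdd (f : XX (ℕ × S)) : ∃ r, ∀ k, col S k f ∈ ball r := by
  obtain ⟨C, hC⟩ := f.bdd
  refine ⟨C, fun k s => ?_⟩
  rw [col_apply]
  exact hC _

end columns

section reduction
variable {S : Type}

/-- bounded sequences with further coordinates in `V` -/
abbrev BB (S V : Type) : Type := {u : ℕ → XX S × V // ∃ r, ∀ k, (u k).1 ∈ ball r}

/-- the sequence of an element of `XX (ℕ × S)` and a sequence in `V` -/
noncomputable def split {V : Type} (z : XX (ℕ × S) × (ℕ → V)) : BB S V :=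
  ⟨fun k => (col S k z.1, z.2 k), col_bdd z.1⟩

/-- inverse of `split` -/
noncomputable def unsplit {V : Type} (u : BB S V) : XX (ℕ × S) × (ℕ → V) :=
  (glue (fun k => (u.1 k).1) u.2, fun k => (u.1 k).2)

theorem split_unsplit {V : Type} (u : BB S V) : split (unsplit u) = u := by
  apply Subtype.ext
  funext k
  exact Prod.ext (col_glue (fun k => (u.1 k).1) u.2 k) rfl

theorem unsplit_split {V : Type} (z : XX (ℕ × S) × (ℕ → V)) : unsplit (split z) = z :=
  Prod.ext (glue_col z.1 (col_bdd z.1)) rfl

theorem continuous_split {V : Type} [TopologicalSpace V] :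
    Continuous (split : XX (ℕ × S) × (ℕ → V) → BB S V) := by
  refine Continuous.subtype_mk (continuous_pi fun k => ?_) _
  exact ((col S k).continuous.comp continuous_fst).prodMk
    ((continuous_apply k).comp continuous_snd)

/-- a homeomorphism of bounded sequences which changes finitely many blocks of each sequence -/
theorem reduction_homeo {V V' : Type} [TopologicalSpace V] [TopologicalSpace V']
    (h : BB S V ≃ₜ BB S V')
    (hh : ∀ u, ∀ᶠ k in atTop, ((h u).1 k).1 = (u.1 k).1) :
    Nonempty ((XX (ℕ × S) × (ℕ → V)) ≃ₜ (XX (ℕ × S) × (ℕ → V'))) := by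
  have key : ∀ {V V' : Type} [TopologicalSpace V] [TopologicalSpace V'] (h : BB S V → BB S V'),
      Continuous h → (∀ u, ∀ᶠ k in atTop, ((h u).1 k).1 = (u.1 k).1) →
      Continuous fun z : XX (ℕ × S) × (ℕ → V) => unsplit (h (split z)) := by
    intro V V' _ _ h hc hh
    have h0 : ∀ k, Continuous fun z : XX (ℕ × S) × (ℕ → V) => (h (split z)).1 k := fun k =>
      (continuous_apply k).comp (continuous_subtype_val.comp (hc.comp continuous_split))
    refine Continuous.prodMk ?_ (continuous_pi fun k => continuous_snd.comp (h0 k))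
    refine continuous_of_col (G := fun z => z.1) continuous_fst (fun k => ?_) fun z => ?_
    · have h1 : ∀ z : XX (ℕ × S) × (ℕ → V),
          col S k (glue (fun k => ((h (split z)).1 k).1) (h (split z)).2) = ((h (split z)).1 k).1 :=
        fun z => col_glue _ _ _
      simp_rw [h1]
      exact continuous_fst.comp (h0 k)
    · filter_upwards [hh (split z)] with k hk
      exact (col_glue _ _ _).trans hk
  refine ⟨{ toFun := fun z => unsplit (h (split z)), invFun := fun z => unsplit (h.symm (split z)),
            left_inv := fun z => ?_, right_inv := fun z => ?_,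
            continuous_toFun := key h h.continuous hh,
            continuous_invFun := key h.symm h.symm.continuous fun u => ?_ }⟩
  · simp only [split_unsplit, Homeomorph.symm_apply_apply, unsplit_split]
  · simp only [split_unsplit, Homeomorph.apply_symm_apply, unsplit_split]
  · filter_upwards [hh (h.symm u)] with k hk
    rw [Homeomorph.apply_symm_apply] at hk
    exact hk.symm

/-- the reduction -/
theorem reduction (h : BB S ℝ ≃ₜ BB S PUnit)
    (hh : ∀ u, ∀ᶠ k in atTop, ((h u).1 k).1 = (u.1 k).1) :
    Nonempty (XX (ℕ × S) ≃ₜ XX (ℕ × S) × (ℕ → ℝ)) := by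
  obtain ⟨e⟩ := reduction_homeo h hh
  exact ⟨((Homeomorph.prodUnique (XX (ℕ × S)) (ℕ → PUnit)).symm).trans e.symm⟩

/-- the reduction for `XX ℕ` -/
theorem reduction_nat (h : BB (ℕ × ℕ) ℝ ≃ₜ BB (ℕ × ℕ) PUnit)
    (hh : ∀ u, ∀ᶠ k in atTop, ((h u).1 k).1 = (u.1 k).1) :
    Nonempty (XX ℕ ≃ₜ XX ℕ × (ℕ → ℝ)) := by
  obtain ⟨e⟩ := reduction h hh
  have r : XX ℕ ≃ₜ XX (ℕ × ℕ × ℕ) := reindex (Classical.choice (nonempty_equiv_of_countable
    (α := ℕ) (β := ℕ × ℕ × ℕ)))
  exact ⟨(r.trans e).trans (r.symm.prodCongr (Homeomorph.refl _))⟩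

/-- the reduction for any space homeomorphic to `XX ℕ` -/
theorem reduction_of_homeo {T : Type} [TopologicalSpace T] (r : XX ℕ ≃ₜ T)
    (h : BB (ℕ × ℕ) ℝ ≃ₜ BB (ℕ × ℕ) PUnit)
    (hh : ∀ u, ∀ᶠ k in atTop, ((h u).1 k).1 = (u.1 k).1) :
    Nonempty (T ≃ₜ T × (ℕ → ℝ)) := by
  obtain ⟨e⟩ := reduction_nat h hh
  exact ⟨(r.symm.trans e).trans (r.prodCongr (Homeomorph.refl _))⟩

end reduction

end Red

open Filter

/-- the reduction for the space of continuous functions on `βω` -/
theorem reduction_SC
    (h : {u : ℕ → XX (ℕ × ℕ) × ℝ // ∃ r, ∀ k, (u k).1 ∈ ball r} ≃ₜ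
      {g : ℕ → XX (ℕ × ℕ) × PUnit.{1} // ∃ r, ∀ k, (g k).1 ∈ ball r})
    (hh : ∀ u, ∀ᶠ k in atTop, ((h u).1 k).1 = (u.1 k).1) :
    Nonempty ({f : StoneCech ℕ → ℝ // Continuous f} ≃ₜ
      ({f : StoneCech ℕ → ℝ // Continuous f} × (ℕ → ℝ))) :=
  Red.reduction_of_homeo toStoneCech h hh

end Pool.Agent.CPY
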