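import Mathlib
import Pool.Agent.CPY.Model

/-!
# The first homeomorphism of the ladder: the real numbers are inserted in class `0`
-/

set_option autoImplicit false

namespace Pool.Agent.CPY

open Set Filter Topology

/-- The shift of class `0` by one. -/
def shift0 (s : ℕ × ℕ) : ℕ × ℕ := (s.1, if s.1 = 0 then s.2 + 1 else s.2)

theorem shift0_injective : Function.Injective shift0 := by
  rintro ⟨c, p⟩ ⟨c', p'⟩ h
  obtain ⟨h1, h2⟩ := Prod.mk.inj h
  change c = c' at h1
  change (if c = 0 then p + 1 else p) = (if c' = 0 then p' + 1 else p') at h2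
  subst h1
  rcases Nat.eq_zero_or_pos c with rfl | hc
  · rw [if_pos rfl, if_pos rfl] at h2
    rw [Nat.succ_injective h2]
  · rw [if_neg hc.ne', if_neg hc.ne'] at h2
    rw [h2]

theorem shift0_ne (s : ℕ × ℕ) : shift0 s ≠ (0, 0) := by
  rcases s with ⟨c, p⟩
  intro h
  obtain ⟨h1, h2⟩ := Prod.mk.inj h
  change c = 0 at h1
  change (if c = 0 then p + 1 else p) = 0 at h2
  rw [if_pos h1] at h2
  omega

theorem eq_of_notMem_range_shift0 {s : ℕ × ℕ} (h : s ∉ Set.range shift0) : s = (0, 0) := by
  rcases s with ⟨c, p⟩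
  rcases Nat.eq_zero_or_pos c with rfl | hc
  · rcases Nat.eq_zero_or_pos p with rfl | hp
    · rfl
    · refine absurd ⟨(0, p - 1), ?_⟩ h
      change (0, if 0 = 0 then p - 1 + 1 else p - 1) = (0, p)
      rw [if_pos rfl, Nat.sub_add_cancel hp]
  · refine absurd ⟨(c, p), ?_⟩ h
    change (c, if c = 0 then p + 1 else p) = (c, p)
    rw [if_neg hc.ne']

theorem shift0_of_pos {c : ℕ} (hc : 1 ≤ c) (p : ℕ) : shift0 (c, p) = (c, p) := by
  change (c, if c = 0 then p + 1 else p) = (c, p)
  rw [if_neg (by omega)]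

theorem chi_self : (chi {((0, 0) : ℕ × ℕ)}) (0, 0) = 1 :=
  Set.indicator_of_mem (Set.mem_singleton _) (1 : ℕ × ℕ → ℝ)

theorem chi_shift0 (s : ℕ × ℕ) : (chi {((0, 0) : ℕ × ℕ)}) (shift0 s) = 0 :=
  Set.indicator_of_notMem (fun h => shift0_ne s (Set.mem_singleton_iff.1 h)) (1 : ℕ × ℕ → ℝ)

/-- The insertion of a real number at the place `(0, 0)`. -/
noncomputable def insHomeo : (XX (ℕ × ℕ) × ℝ) ≃ₜ (XX (ℕ × ℕ) × PUnit.{1}) where
  toFun x := (push shift0 shift0_injective x.1 + x.2 • chi {(0, 0)}, PUnit.unit)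
  invFun g := (pull shift0 g.1, g.1 (0, 0))
  left_inv x := by
    refine Prod.ext (XX.ext fun s => ?_) ?_
    · change (push shift0 shift0_injective x.1) (shift0 s) + x.2 * (chi {(0, 0)}) (shift0 s) =
        x.1 s
      rw [push_apply, chi_shift0, mul_zero, add_zero]
    · change (push shift0 shift0_injective x.1) (0, 0) + x.2 * (chi {(0, 0)}) (0, 0) = x.2
      rw [push_apply_of_notMem _ _ _ (fun ⟨s, hs⟩ => shift0_ne s hs), chi_self, mul_one, zero_add]
  right_inv g := by
    refine Prod.ext (XX.ext fun s => ?_) rfl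
    change (push shift0 shift0_injective (pull shift0 g.1)) s + g.1 (0, 0) * (chi {(0, 0)}) s =
      g.1 s
    by_cases h : s ∈ Set.range shift0
    · obtain ⟨s', rfl⟩ := h
      rw [push_apply, chi_shift0, mul_zero, add_zero, pull_apply]
    · rw [push_apply_of_notMem _ _ _ h, eq_of_notMem_range_shift0 h, chi_self, mul_one, zero_add]
  continuous_toFun := by
    refine Continuous.prodMk (Continuous.add ?_ ?_) continuous_const
    · exact (push shift0 shift0_injective).continuous.comp continuous_fst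
    · exact continuous_snd.smul continuous_const
  continuous_invFun := by
    refine Continuous.prodMk ?_ ?_
    · exact (pull shift0).continuous.comp continuous_fst
    · exact (continuous_apply_XX (0, 0)).comp continuous_fst

/-- **The first homeomorphism of the ladder.** -/
theorem exists_H0 : ∃ H0 : (ℕ → XX (ℕ × ℕ) × ℝ) ≃ₜ (ℕ → XX (ℕ × ℕ) × PUnit.{1}),
    ∀ u k c, 1 ≤ c → proj c (H0 u k).1 = proj c (u k).1 := by
  refine ⟨Homeomorph.piCongrRight fun _ => insHomeo, fun u k c hc => XX.ext fun p => ?_⟩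
  change (push shift0 shift0_injective (u k).1) (c, p) + (u k).2 * (chi {(0, 0)}) (c, p) =
    (u k).1 (c, p)
  have h1 : (push shift0 shift0_injective (u k).1) (shift0 (c, p)) +
      (u k).2 * (chi {(0, 0)}) (shift0 (c, p)) = (u k).1 (c, p) := by
    rw [push_apply, chi_shift0, mul_zero, add_zero]
  rwa [shift0_of_pos hc p] at h1

end Pool.Agent.CPY
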