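import Mathlib
import Pool.Agent.CPY.Main
import Pool.Agent.CPY.Line
import Pool.Agent.CPY.Code
import Pool.Agent.CPY.Start
import Pool.Agent.CPY.CutoffX
import Pool.Agent.CPY.Red

/-!
# The homeomorphism
-/

set_option autoImplicit false

namespace Pool.Agent.CPY

open Set Filter Topology

/-- The space of continuous real functions on the Stone-Cech compactification of the naturals,
with the topology of pointwise convergence, is homeomorphic to its product with the countable
power of the reals. -/
theorem main : Nonempty ({f : StoneCech ℕ → ℝ // Continuous f} ≃ₜ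
    ({f : StoneCech ℕ → ℝ // Continuous f} × (ℕ → ℝ))) := by
  obtain ⟨H0, hH0⟩ := exists_H0
  obtain ⟨h, hh⟩ := exists_bdd_homeo (fun r hr => exists_Yj ℕ r hr) hasCode_real hasCode_punit
    exists_cutoff_real exists_cutoff_punit H0 hH0
  exact reduction_SC h hh

end Pool.Agent.CPY
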